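import Pool.Agent.H49.PPR.IC
import Pool.Agent.H37.PPE.AA

/-!
PPR AA: all but O(x/(log x)^(5/4)) of the orders are primes.

Copy of Pool/Agent/H37/PPE/AA.lean (almost_all, AA_a, AA_b) with ε = 1/8 fixed.
`AAB` (v prime): exists_root T x gives z with z^T ≤ x < (z+1)^T; I2' (hypothesis as in AA_b, AA_AB gives A, B); exp_ll_le with a = 5/4;
  x^(7/8) ≤ C x/(log x)^(5/4).  For small x (x < 2^T, or x < x0) the trivial bound |S| ≤ x and a large constant.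
`AAA` (v = u w, primes, u > x^(7/8)): Y = floor(x^(7/8)), J ≤ 2 log x + 4 (x ≤ Y 2^J), z: root of x of order 2 T0; I1'; exp_ll_le with a = 9/4:
  C (2 log x + 5) x (4 T0)^(9/4)/(log x)^(9/4) ≤ C' x/(log x)^(5/4).   u is a square mod p (p ≡ 1 mod 4, p ∣ n): Good.test gives J(p|u) ≠ -1, u ≠ p
  (u > z ≥ p), reciprocity (jacobiSym.quadratic_reciprocity_one_mod_four or legendreSym) J(p|u) = J(u|p), so (u/p) = 1.
`power_saving`: structure_main (1/8) for G1, squares and n ≤ sqrt x: ≤ 2 sqrt x ≤ C x/(log x)^(5/4) (rpow_five).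
-/

set_option autoImplicit false

namespace Pool.Agent.H49.PPR

open Finset Pool.Agent.H37.PPC Pool.Agent.H37.PPD Pool.Agent.H37.PPE

/-- the trivial bound for small `x` -/
private theorem AA_triv (x0 : ℕ) : ∃ C : ℝ, 0 < C ∧ ∀ x : ℕ, 2 ≤ x → x < x0 → ∀ S : Finset ℕ,
    (∀ n ∈ S, 1 ≤ n ∧ n ≤ x) → (S.card : ℝ) ≤ C * x / Real.log x ^ (5 / 4 : ℝ) := by
  refine ⟨(x0 : ℝ) ^ (5 / 4 : ℝ) + 1, by positivity, ?_⟩
  intro x hx hx0 S hS
  have hx1 : (1 : ℝ) < x := by exact_mod_cast (by omega : 1 < x)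
  have hlx : 0 < Real.log x := Real.log_pos hx1
  have hc : S.card ≤ x := by
    have h1 : S ⊆ Icc 1 x := fun n hn => mem_Icc.2 (hS n hn)
    have h2 := card_le_card h1
    rwa [Nat.card_Icc, Nat.add_sub_cancel] at h2
  have hc' : (S.card : ℝ) ≤ x := by exact_mod_cast hc
  have hl : Real.log x ≤ x0 := by
    have h1 := Real.log_le_sub_one_of_pos (show (0 : ℝ) < x by linarith)
    have h2 : (x : ℝ) ≤ x0 := by exact_mod_cast hx0.le
    linarith
  have hp : Real.log x ^ (5 / 4 : ℝ) ≤ (x0 : ℝ) ^ (5 / 4 : ℝ) + 1 := by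
    have := Real.rpow_le_rpow hlx.le hl (show (0 : ℝ) ≤ 5 / 4 by norm_num)
    linarith
  have hlp : 0 < Real.log x ^ (5 / 4 : ℝ) := Real.rpow_pos_of_pos hlx _
  rw [le_div_iff₀ hlp]
  calc (S.card : ℝ) * Real.log x ^ (5 / 4 : ℝ) ≤ x * ((x0 : ℝ) ^ (5 / 4 : ℝ) + 1) :=
        mul_le_mul hc' hp hlp.le (by linarith)
    _ = _ := by ring

private theorem AA_78 {x : ℝ} (hx : 2 ≤ x) :
    x ^ (7 / 8 : ℝ) ≤ 10 ^ (5 / 4 : ℝ) * x / Real.log x ^ (5 / 4 : ℝ) := by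
  have hx0 : 0 < x := by linarith
  have hlx : 0 < Real.log x := Real.log_pos (by linarith)
  have hlp : 0 < Real.log x ^ (5 / 4 : ℝ) := Real.rpow_pos_of_pos hlx _
  have h1 : Real.log x ≤ 10 * x ^ (1 / 10 : ℝ) := by
    have := Real.log_le_rpow_div hx0.le (show (0 : ℝ) < 1 / 10 by norm_num)
    linarith
  have h2 : Real.log x ^ (5 / 4 : ℝ) ≤ 10 ^ (5 / 4 : ℝ) * x ^ (1 / 8 : ℝ) := by
    calc Real.log x ^ (5 / 4 : ℝ) ≤ (10 * x ^ (1 / 10 : ℝ)) ^ (5 / 4 : ℝ) :=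
          Real.rpow_le_rpow hlx.le h1 (by norm_num)
      _ = 10 ^ (5 / 4 : ℝ) * x ^ (1 / 8 : ℝ) := by
          rw [Real.mul_rpow (by norm_num) (by positivity), ← Real.rpow_mul hx0.le]
          norm_num
  rw [le_div_iff₀ hlp]
  calc x ^ (7 / 8 : ℝ) * Real.log x ^ (5 / 4 : ℝ)
      ≤ x ^ (7 / 8 : ℝ) * (10 ^ (5 / 4 : ℝ) * x ^ (1 / 8 : ℝ)) :=
        mul_le_mul_of_nonneg_left h2 (by positivity)
    _ = 10 ^ (5 / 4 : ℝ) * (x ^ (7 / 8 : ℝ) * x ^ (1 / 8 : ℝ)) := by ring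
    _ = 10 ^ (5 / 4 : ℝ) * x := by
        rw [← Real.rpow_add hx0]
        norm_num

theorem AAB : ∃ C : ℝ, 0 < C ∧ ∀ x : ℕ, 2 ≤ x → ∀ S : Finset ℕ,
    (∀ n ∈ S, n ≤ x ∧ (x : ℝ) ^ (1 / 2 : ℝ) ≤ n ∧ Good n ∧ (n ^ 2 + n + 1).Prime ∧
      (n ^ 2 + n + 1) % 4 = 1) →
    (S.card : ℝ) ≤ C * x / Real.log x ^ (5 / 4 : ℝ) := by
  obtain ⟨T, hT, C, hC, H⟩ := I2'
  obtain ⟨Ct, hCt, Ht⟩ := AA_triv (2 ^ T)
  have hT0 : (0 : ℝ) < T := by exact_mod_cast hT
  refine ⟨C * (2 * T) ^ (5 / 4 : ℝ) + C * 10 ^ (5 / 4 : ℝ) + Ct, by positivity, fun x hx S hS => ?_⟩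
  have hx2 : (2 : ℝ) ≤ x := by exact_mod_cast hx
  have hx0 : (0 : ℝ) < x := by linarith
  have hlx : 0 < Real.log x := Real.log_pos (by linarith)
  have hlp : 0 < Real.log x ^ (5 / 4 : ℝ) := Real.rpow_pos_of_pos hlx _
  have hxl : 0 ≤ (x : ℝ) / Real.log x ^ (5 / 4 : ℝ) := by positivity
  rcases lt_or_ge x (2 ^ T) with hxT | hxT
  · have h1 := Ht x hx hxT S (fun n hn => by
      obtain ⟨h1, -, h2, -⟩ := hS n hn
      have := h2.1
      exact ⟨by omega, h1⟩)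
    refine h1.trans ?_
    rw [mul_div_assoc, mul_div_assoc]
    exact mul_le_mul_of_nonneg_right (by
      have : 0 ≤ C * (2 * T) ^ (5 / 4 : ℝ) + C * 10 ^ (5 / 4 : ℝ) := by positivity
      linarith) hxl
  · obtain ⟨z, hz2, hzx, hxz⟩ := exists_root T x hT hxT
    have hzx' : z ≤ x := (Nat.le_self_pow (by omega) z).trans hzx
    have h1 := H x z hz2 hzx S ?_
    · have h2 := exp_ll_le hT hz2 hzx hxz (5 / 4) (by norm_num)
      rw [show -(5 / 4 : ℝ) * ll z = -((5 / 4) * ll z) by ring] at h2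
      have h5 : C * x * Real.exp (-((5 / 4) * ll z)) ≤
          C * (2 * T) ^ (5 / 4 : ℝ) * (x / Real.log x ^ (5 / 4 : ℝ)) := by
        calc C * x * Real.exp (-((5 / 4) * ll z))
            ≤ C * x * ((2 * T) ^ (5 / 4 : ℝ) / Real.log x ^ (5 / 4 : ℝ)) :=
              mul_le_mul_of_nonneg_left h2 (by positivity)
          _ = _ := by ring
      have h6 : C * (x : ℝ) ^ (7 / 8 : ℝ) ≤
          C * 10 ^ (5 / 4 : ℝ) * (x / Real.log x ^ (5 / 4 : ℝ)) := by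
        calc C * (x : ℝ) ^ (7 / 8 : ℝ)
            ≤ C * (10 ^ (5 / 4 : ℝ) * x / Real.log x ^ (5 / 4 : ℝ)) :=
              mul_le_mul_of_nonneg_left (AA_78 hx2) hC.le
          _ = _ := by ring
      calc (S.card : ℝ) ≤ _ := h1
        _ ≤ C * (2 * T) ^ (5 / 4 : ℝ) * (x / Real.log x ^ (5 / 4 : ℝ)) +
            C * 10 ^ (5 / 4 : ℝ) * (x / Real.log x ^ (5 / 4 : ℝ)) := add_le_add h5 h6
        _ ≤ C * (2 * T) ^ (5 / 4 : ℝ) * (x / Real.log x ^ (5 / 4 : ℝ)) +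
            C * 10 ^ (5 / 4 : ℝ) * (x / Real.log x ^ (5 / 4 : ℝ)) +
            Ct * (x / Real.log x ^ (5 / 4 : ℝ)) := by
            have := mul_nonneg hCt.le hxl
            linarith
        _ = _ := by ring
    · intro n hn
      obtain ⟨hnx, hns, hng, hnv, hn4⟩ := hS n hn
      obtain ⟨A, B, hAB, hB, hA, hsq⟩ := AA_AB hng hnv hn4
      refine ⟨by have := hng.1; omega, hnx, A, B, hAB, hB, hA, ?_, ?_⟩
      · intro p hp hpv
        rw [mem_pr] at hp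
        have h3 : p = n ^ 2 + n + 1 := (Nat.prime_dvd_prime_iff_eq hp.2 hnv).1 hpv
        have h4 : x ≤ n ^ 2 := by
          have h5 : ((x : ℝ) ^ (1 / 2 : ℝ)) ^ 2 ≤ (n : ℝ) ^ 2 :=
            pow_le_pow_left₀ (by positivity) hns 2
          rw [← Real.rpow_natCast, ← Real.rpow_mul hx0.le] at h5
          norm_num at h5
          exact_mod_cast h5
        omega
      · intro p hp hp4 hpn
        rw [mem_pr] at hp
        exact hsq p hp.2 hp4 hpn

/-- a prime factor `u` of `n²+n+1` is a square modulo a prime factor `p ≡ 1` mod `4` of `n` -/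
private theorem AA_sq {n u p : ℕ} (hn : Good n) (hu : u.Prime) (huv : u ∣ n ^ 2 + n + 1)
    (hp : p.Prime) (hp4 : p % 4 = 1) (hpn : p ∣ n) : IsSquare (u : ZMod p) := by
  have : Fact p.Prime := ⟨hp⟩
  have hpu : p ≠ u := by
    rintro rfl
    have h1 : p ∣ n ^ 2 + n := by
      have h2 : n ^ 2 + n = n * (n + 1) := by ring
      rw [h2]
      exact hpn.mul_right _
    have h2 := (Nat.dvd_add_right h1).1 huv
    exact hp.one_lt.ne' (Nat.dvd_one.1 h2)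
  have hodd : Odd u := by
    rcases hu.eq_two_or_odd' with h | h
    · exfalso
      subst h
      have h1 : n ^ 2 + n = n * (n + 1) := by ring
      rw [h1] at huv
      have h2 : Even (n * (n + 1)) := Nat.even_mul_succ_self n
      have h3 := (Nat.dvd_add_right (even_iff_two_dvd.1 h2)).1 huv
      norm_num at h3
    · exact h
  have h1 : jacobiSym (p : ℤ) u ≠ -1 := fun h => hn.test hp hpn hu h huv
  have hcop : (p : ℤ).gcd u = 1 := by
    rw [Int.gcd_natCast_natCast]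
    exact (Nat.coprime_primes hp hu).2 hpu
  have h2 : jacobiSym (p : ℤ) u = 1 := by
    rcases jacobiSym.eq_one_or_neg_one hcop with h | h
    · exact h
    · exact absurd h h1
  have h3 : jacobiSym (u : ℤ) p = 1 := by
    rw [← jacobiSym.quadratic_reciprocity_one_mod_four hp4 hodd]
    exact h2
  have h4 : legendreSym p (u : ℤ) = 1 := by
    rw [jacobiSym.legendreSym.to_jacobiSym]
    exact h3
  have h5 : (((u : ℕ) : ℤ) : ZMod p) ≠ 0 := by
    rw [Int.cast_natCast, Ne, ZMod.natCast_eq_zero_iff]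
    intro h
    exact hpu ((Nat.prime_dvd_prime_iff_eq hp hu).1 h)
  have h6 := (legendreSym.eq_one_iff p h5).1 h4
  rwa [Int.cast_natCast] at h6

theorem AAA : ∃ C : ℝ, 0 < C ∧ ∀ x : ℕ, 2 ≤ x → ∀ S : Finset ℕ,
    (∀ n ∈ S, 1 ≤ n ∧ n ≤ x ∧ Good n ∧ ∃ u w : ℕ, u.Prime ∧ w.Prime ∧ u * w = n ^ 2 + n + 1 ∧
      (x : ℝ) ^ (7 / 8 : ℝ) < u ∧ u ≤ w) →
    (S.card : ℝ) ≤ C * x / Real.log x ^ (5 / 4 : ℝ) := by
  obtain ⟨T0, hT0, C, hC, H⟩ := I1'
  obtain ⟨Ct, hCt, Ht⟩ := AA_triv (max 16 (2 ^ (2 * T0)))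
  have hT : (0 : ℝ) < T0 := by exact_mod_cast hT0
  refine ⟨C * 5 * (4 * T0) ^ (9 / 4 : ℝ) + Ct, by positivity, fun x hx S hS => ?_⟩
  have hx2 : (2 : ℝ) ≤ x := by exact_mod_cast hx
  have hx0 : (0 : ℝ) < x := by linarith
  have hx1' : (1 : ℝ) ≤ x := by linarith
  have hlx : 0 < Real.log x := Real.log_pos (by linarith)
  have hlp : 0 < Real.log x ^ (5 / 4 : ℝ) := Real.rpow_pos_of_pos hlx _
  have hxl : 0 ≤ (x : ℝ) / Real.log x ^ (5 / 4 : ℝ) := by positivity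
  rcases lt_or_ge x (max 16 (2 ^ (2 * T0))) with hxT | hxT
  · have h1 := Ht x hx hxT S (fun n hn => ⟨(hS n hn).1, (hS n hn).2.1⟩)
    refine h1.trans ?_
    rw [mul_div_assoc, mul_div_assoc]
    exact mul_le_mul_of_nonneg_right (by
      have : 0 ≤ C * 5 * (4 * T0) ^ (9 / 4 : ℝ) := by positivity
      linarith) hxl
  · have hx16 : 16 ≤ x := (le_max_left _ _).trans hxT
    have hxc : 2 ^ (2 * T0) ≤ x := (le_max_right _ _).trans hxT
    have hx16' : (16 : ℝ) ≤ x := by exact_mod_cast hx16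
    obtain ⟨z, hz2, hzx, hxz⟩ := exists_root (2 * T0) x (by omega) hxc
    set Y : ℕ := ⌊(x : ℝ) ^ (7 / 8 : ℝ)⌋₊ with hY
    have hYle : (Y : ℝ) ≤ (x : ℝ) ^ (7 / 8 : ℝ) := Nat.floor_le (by positivity)
    have hYgt : (x : ℝ) ^ (7 / 8 : ℝ) < Y + 1 := Nat.lt_floor_add_one _
    have hx78 : 2 * (x : ℝ) ^ (1 / 2 : ℝ) ≤ (x : ℝ) ^ (7 / 8 : ℝ) := by
      have h1 : (x : ℝ) ^ (7 / 8 : ℝ) = (x : ℝ) ^ (3 / 8 : ℝ) * (x : ℝ) ^ (1 / 2 : ℝ) := by
        rw [← Real.rpow_add hx0]; norm_num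
      have h2 : (2 : ℝ) ≤ (x : ℝ) ^ (3 / 8 : ℝ) := by
        calc (2 : ℝ) = (16 : ℝ) ^ (1 / 4 : ℝ) := by
              rw [show (16 : ℝ) = 2 ^ (4 : ℝ) by norm_num, ← Real.rpow_mul (by norm_num)]
              norm_num
          _ ≤ (x : ℝ) ^ (1 / 4 : ℝ) := Real.rpow_le_rpow (by norm_num) hx16' (by norm_num)
          _ ≤ (x : ℝ) ^ (3 / 8 : ℝ) := Real.rpow_le_rpow_of_exponent_le hx1' (by norm_num)
      rw [h1]
      exact mul_le_mul_of_nonneg_right h2 (by positivity)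
    have hx12 : (4 : ℝ) ≤ (x : ℝ) ^ (1 / 2 : ℝ) := by
      calc (4 : ℝ) = (16 : ℝ) ^ (1 / 2 : ℝ) := by
            rw [show (16 : ℝ) = 4 ^ (2 : ℝ) by norm_num, ← Real.rpow_mul (by norm_num)]
            norm_num
        _ ≤ (x : ℝ) ^ (1 / 2 : ℝ) := Real.rpow_le_rpow (by norm_num) hx16' (by norm_num)
    have hYx : (x : ℝ) ^ (1 / 2 : ℝ) ≤ Y := by linarith
    have hY1 : (1 : ℝ) ≤ Y := by linarith
    have hzY : z ^ T0 ≤ Y := by
      have h1 : ((z : ℝ) ^ T0) ^ 2 ≤ x := by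
        rw [← pow_mul, mul_comm T0 2]
        exact_mod_cast hzx
      have h2 : (z : ℝ) ^ T0 ≤ (x : ℝ) ^ (1 / 2 : ℝ) := by
        rw [← Real.sqrt_eq_rpow]
        exact Real.le_sqrt_of_sq_le h1
      have h3 : ((z ^ T0 : ℕ) : ℝ) ≤ Y := by
        push_cast
        exact h2.trans hYx
      exact_mod_cast h3
    -- the number of dyadic steps
    set J : ℕ := ⌈Real.log x / Real.log 2⌉₊ with hJ
    have hl2 : 0 < Real.log 2 := Real.log_pos (by norm_num)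
    have hl2' := Real.log_two_gt_d9
    have hJ1 : x ≤ Y * 2 ^ J := by
      have h1 : Real.log x ≤ J * Real.log 2 := by
        have := Nat.le_ceil (Real.log x / Real.log 2)
        rwa [div_le_iff₀ hl2] at this
      have h2 : (x : ℝ) ≤ 2 ^ J := by
        rw [← Real.log_pow] at h1
        exact (Real.log_le_log_iff (by positivity) (by positivity)).1 h1
      have h3 : x ≤ 2 ^ J := by exact_mod_cast h2
      have h4 : 1 ≤ Y := by exact_mod_cast hY1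
      exact h3.trans (Nat.le_mul_of_pos_left _ h4)
    have hlog1 : Real.log 2 ≤ Real.log x := Real.log_le_log (by norm_num) hx2
    have hJ2 : (J : ℝ) + 1 ≤ 5 * Real.log x := by
      have h3 : (J : ℝ) < Real.log x / Real.log 2 + 1 :=
        Nat.ceil_lt_add_one (div_nonneg hlx.le hl2.le)
      have h4 : Real.log x / Real.log 2 ≤ 2 * Real.log x := by
        rw [div_le_iff₀ hl2]
        nlinarith
      nlinarith
    have h1 := H x Y J z hz2 hzY hJ1 S ?_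
    · have h2 := exp_ll_le (by omega : 1 ≤ 2 * T0) hz2 hzx hxz (9 / 4) (by norm_num)
      have h3 : Real.exp (-((9 / 4) * ll z)) ≤
          (4 * T0) ^ (9 / 4 : ℝ) / (Real.log x * Real.log x ^ (5 / 4 : ℝ)) := by
        rw [show -((9 / 4 : ℝ) * ll z) = -(9 / 4) * ll z by ring]
        refine h2.trans (le_of_eq ?_)
        push_cast
        congr 1
        · congr 1
          ring
        · rw [show (9 / 4 : ℝ) = 1 + 5 / 4 by norm_num, Real.rpow_add hlx, Real.rpow_one]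
      calc (S.card : ℝ) ≤ C * (J + 1) * x * Real.exp (-((9 / 4) * ll z)) := h1
        _ ≤ C * (5 * Real.log x) * x *
            ((4 * T0) ^ (9 / 4 : ℝ) / (Real.log x * Real.log x ^ (5 / 4 : ℝ))) := by
            refine mul_le_mul ?_ h3 (Real.exp_pos _).le (by positivity)
            refine mul_le_mul_of_nonneg_right ?_ hx0.le
            exact mul_le_mul_of_nonneg_left hJ2 hC.le
        _ = C * 5 * (4 * T0) ^ (9 / 4 : ℝ) * (x / Real.log x ^ (5 / 4 : ℝ)) := by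
            field_simp
        _ ≤ C * 5 * (4 * T0) ^ (9 / 4 : ℝ) * (x / Real.log x ^ (5 / 4 : ℝ)) +
            Ct * (x / Real.log x ^ (5 / 4 : ℝ)) := by
            have := mul_nonneg hCt.le hxl
            linarith
        _ = _ := by ring
    · intro n hn
      obtain ⟨hn1, hnx, hng, u, w, hu, hw, huw, hux, huw'⟩ := hS n hn
      have hYu : Y < u := by
        have : (Y : ℝ) < u := lt_of_le_of_lt hYle hux
        exact_mod_cast this
      refine ⟨hn1, hnx, u, w, huw, hYu, huw', ?_, ?_⟩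
      · intro p hp hpd
        rw [mem_pr] at hp
        have hzz : z ≤ z ^ T0 := Nat.le_self_pow (by omega) z
        rcases (Nat.Prime.dvd_mul hp.2).1 hpd with h | h
        · have := (Nat.prime_dvd_prime_iff_eq hp.2 hu).1 h
          omega
        · have := (Nat.prime_dvd_prime_iff_eq hp.2 hw).1 h
          omega
      · intro p hp hp4 hpn
        rw [mem_pr] at hp
        exact AA_sq hng hu ⟨w, huw.symm⟩ hp.2 hp4 hpn

open Classical in
theorem power_saving : ∃ C : ℝ, 0 < C ∧ ∀ x : ℕ, 2 ≤ x →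
    (((Icc 2 x).filter (fun n => IsOrder n ∧ ¬ n.Prime)).card : ℝ) ≤
      C * x / Real.log x ^ (5 / 4 : ℝ) := by
  obtain ⟨Ca, hCa, Ha⟩ := AAA
  obtain ⟨Cb, hCb, Hb⟩ := AAB
  obtain ⟨Cs, hCs, Hs⟩ := structure_main (1 / 8) (by norm_num)
  obtain ⟨Ct, hCt, Ht⟩ := AA_triv 16
  refine ⟨Ca + Cb + Cs + Ct + 12, by positivity, fun x hx => ?_⟩
  have hx2 : (2 : ℝ) ≤ x := by exact_mod_cast hx
  have hx0 : (0 : ℝ) < x := by linarith
  have hx1' : (1 : ℝ) ≤ x := by linarith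
  have hlx : 0 < Real.log x := Real.log_pos (by linarith)
  have hlp : 0 < Real.log x ^ (5 / 4 : ℝ) := Real.rpow_pos_of_pos hlx _
  have hxl : 0 ≤ (x : ℝ) / Real.log x ^ (5 / 4 : ℝ) := by positivity
  set G := (Icc 2 x).filter (fun n => IsOrder n ∧ ¬ n.Prime) with hG
  rcases lt_or_ge x 16 with hx16 | hx16
  · have h1 := Ht x hx hx16 G (fun n hn => by
      rw [hG, mem_filter, mem_Icc] at hn
      exact ⟨by omega, hn.1.2⟩)
    refine h1.trans ?_
    rw [mul_div_assoc, mul_div_assoc]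
    exact mul_le_mul_of_nonneg_right (by linarith) hxl
  have hx16' : (16 : ℝ) ≤ x := by exact_mod_cast hx16
  set G1 := (Icc 2 x).filter (fun n => IsOrder n ∧ ¬ n.Prime ∧ (n % 4 = 1 ∨ n % 4 = 2 ∨
      ∃ q : ℕ, q.Prime ∧ q ∣ n ^ 2 + n + 1 ∧ (q : ℝ) ≤ (x : ℝ) ^ (1 - (1 / 8 : ℝ)))) with hG1
  set GQ := G.filter (fun n => IsSquare n) with hGQ
  set GS := (Icc 1 (Nat.sqrt x)) with hGS
  set R := G.filter (fun n => n ∉ G1 ∧ ¬ IsSquare n ∧ n ∉ GS) with hR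
  set Rp := R.filter (fun n => (n ^ 2 + n + 1).Prime) with hRp
  set Rc := R.filter (fun n => ¬ (n ^ 2 + n + 1).Prime) with hRc
  have hcov : G ⊆ G1 ∪ (GQ ∪ (GS ∪ (Rp ∪ Rc))) := by
    intro n hn
    simp only [mem_union]
    by_cases h1 : n ∈ G1
    · exact Or.inl h1
    by_cases h2 : IsSquare n
    · exact Or.inr (Or.inl (mem_filter.2 ⟨hn, h2⟩))
    by_cases h3 : n ∈ GS
    · exact Or.inr (Or.inr (Or.inl h3))
    have h4 : n ∈ R := mem_filter.2 ⟨hn, h1, h2, h3⟩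
    by_cases h5 : (n ^ 2 + n + 1).Prime
    · exact Or.inr (Or.inr (Or.inr (Or.inl (mem_filter.2 ⟨h4, h5⟩))))
    · exact Or.inr (Or.inr (Or.inr (Or.inr (mem_filter.2 ⟨h4, h5⟩))))
  have hc : (G.card : ℝ) ≤ G1.card + (GQ.card + (GS.card + (Rp.card + Rc.card))) := by
    have h1 : G.card ≤ G1.card + (GQ.card + (GS.card + (Rp.card + Rc.card))) := by
      refine (card_le_card hcov).trans ((card_union_le _ _).trans ?_)
      apply Nat.add_le_add_left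
      refine (card_union_le _ _).trans ?_
      apply Nat.add_le_add_left
      refine (card_union_le _ _).trans ?_
      apply Nat.add_le_add_left
      exact card_union_le _ _
    exact_mod_cast h1
  have e1 : (G1.card : ℝ) ≤ Cs * (x / Real.log x ^ (5 / 4 : ℝ)) := by
    refine (Hs x hx).trans (le_of_eq ?_)
    rw [mul_div_assoc]
  -- squares and small numbers
  have hsqrt2 : Real.sqrt x ≤ 6 * (x / Real.log x ^ (5 / 4 : ℝ)) := by
    rw [← mul_div_assoc, le_div_iff₀ hlp]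
    have h1 := rpow_five hx1'
    have h2 : Real.sqrt x = (x : ℝ) ^ (1 / 2 : ℝ) := Real.sqrt_eq_rpow _
    calc Real.sqrt x * Real.log x ^ (5 / 4 : ℝ) ≤ Real.sqrt x * (6 * (x : ℝ) ^ (1 / 2 : ℝ)) :=
          mul_le_mul_of_nonneg_left h1 (Real.sqrt_nonneg _)
      _ = 6 * (Real.sqrt x * Real.sqrt x) := by rw [← h2]; ring
      _ = 6 * x := by rw [Real.mul_self_sqrt hx0.le]
  have e2 : (GQ.card : ℝ) ≤ 6 * (x / Real.log x ^ (5 / 4 : ℝ)) := by
    have h1 := card_squares x GQ (fun n hn => by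
      rw [hGQ, mem_filter, hG, mem_filter, mem_Icc] at hn
      exact ⟨by omega, hn.1.1.2, hn.2⟩)
    have h2 : (GQ.card : ℝ) ≤ Nat.sqrt x := by exact_mod_cast h1
    exact (h2.trans Real.nat_sqrt_le_real_sqrt).trans hsqrt2
  have e3 : (GS.card : ℝ) ≤ 6 * (x / Real.log x ^ (5 / 4 : ℝ)) := by
    have h1 : GS.card = Nat.sqrt x := by
      rw [hGS, Nat.card_Icc]; omega
    rw [h1]
    exact Real.nat_sqrt_le_real_sqrt.trans hsqrt2
  -- facts on the remaining set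
  have hRf : ∀ n ∈ R, 2 ≤ n ∧ n ≤ x ∧ IsOrder n ∧ ¬ IsSquare n ∧ Nat.sqrt x < n ∧
      (n ^ 2 + n + 1) % 4 = 1 ∧
      ∀ q : ℕ, q.Prime → q ∣ n ^ 2 + n + 1 → (x : ℝ) ^ (7 / 8 : ℝ) < q := by
    intro n hn
    rw [hR, mem_filter, hG, mem_filter, mem_Icc] at hn
    obtain ⟨⟨⟨h1, h2⟩, h3, h4⟩, h5, h6, h7⟩ := hn
    have h8 : ¬ (n % 4 = 1 ∨ n % 4 = 2 ∨
      ∃ q : ℕ, q.Prime ∧ q ∣ n ^ 2 + n + 1 ∧ (q : ℝ) ≤ (x : ℝ) ^ (1 - (1 / 8 : ℝ))) := by
      intro hcon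
      exact h5 (mem_filter.2 ⟨mem_Icc.2 ⟨h1, h2⟩, h3, h4, hcon⟩)
    rw [show (1 : ℝ) - 1 / 8 = 7 / 8 by norm_num] at h8
    push Not at h8
    refine ⟨h1, h2, h3, h6, ?_, ?_, h8.2.2⟩
    · by_contra hcon
      push Not at hcon
      exact h7 (mem_Icc.2 ⟨by omega, hcon⟩)
    · have h9 : n % 4 = 0 ∨ n % 4 = 3 := by omega
      rcases h9 with h9 | h9
      · simp [Nat.add_mod, Nat.pow_mod, h9]
      · simp [Nat.add_mod, Nat.pow_mod, h9]
  have e4 : (Rp.card : ℝ) ≤ Cb * (x / Real.log x ^ (5 / 4 : ℝ)) := by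
    have h1 := Hb x hx Rp (fun n hn => by
      rw [hRp, mem_filter] at hn
      obtain ⟨h1, h2, h3, h4, h5, h6, h7⟩ := hRf n hn.1
      refine ⟨h2, ?_, ⟨h1, h3, h4⟩, hn.2, h6⟩
      rw [← Real.sqrt_eq_rpow]
      have h8 : x < n * n := Nat.sqrt_lt.1 h5
      have h9 : (x : ℝ) ≤ (n : ℝ) ^ 2 := by
        have : (x : ℝ) < ((n * n : ℕ) : ℝ) := by exact_mod_cast h8
        push_cast at this
        nlinarith
      exact Real.sqrt_le_iff.2 ⟨by positivity, h9⟩)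
    refine h1.trans (le_of_eq ?_)
    rw [mul_div_assoc]
  have e5 : (Rc.card : ℝ) ≤ Ca * (x / Real.log x ^ (5 / 4 : ℝ)) := by
    have h1 := Ha x hx Rc (fun n hn => by
      rw [hRc, mem_filter] at hn
      obtain ⟨h1, h2, h3, h4, h5, h6, h7⟩ := hRf n hn.1
      refine ⟨by omega, h2, ⟨h1, h3, h4⟩, ?_⟩
      have h16 : ((n ^ 2 + n + 1 : ℕ) : ℝ) ≤ ((x : ℝ) ^ (7 / 8 : ℝ)) ^ 3 := by
        have h8 : ((x : ℝ) ^ (7 / 8 : ℝ)) ^ 3 = (x : ℝ) ^ (21 / 8 : ℝ) := by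
          rw [← Real.rpow_natCast, ← Real.rpow_mul hx0.le]
          norm_num
        have h10 : (x : ℝ) ^ (21 / 8 : ℝ) = (x : ℝ) ^ (5 / 8 : ℝ) * (x : ℝ) ^ 2 := by
          rw [← Real.rpow_natCast (x : ℝ) 2, ← Real.rpow_add hx0]
          norm_num
        have h11 : (4 : ℝ) ≤ (x : ℝ) ^ (5 / 8 : ℝ) := by
          calc (4 : ℝ) = (16 : ℝ) ^ (1 / 2 : ℝ) := by
                rw [show (16 : ℝ) = 4 ^ (2 : ℝ) by norm_num, ← Real.rpow_mul (by norm_num)]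
                norm_num
            _ ≤ (x : ℝ) ^ (1 / 2 : ℝ) := Real.rpow_le_rpow (by norm_num) hx16' (by norm_num)
            _ ≤ (x : ℝ) ^ (5 / 8 : ℝ) := Real.rpow_le_rpow_of_exponent_le hx1' (by norm_num)
        have h12 : ((n ^ 2 + n + 1 : ℕ) : ℝ) ≤ 3 * (x : ℝ) ^ 2 := by
          have h13 : (n : ℝ) ≤ x := by exact_mod_cast h2
          have h14 : (0 : ℝ) ≤ n := Nat.cast_nonneg _
          push_cast
          nlinarith
        rw [h8, h10]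
        refine h12.trans ?_
        have h15 : (0 : ℝ) ≤ (x : ℝ) ^ 2 := by positivity
        nlinarith
      exact AA_two (v := n ^ 2 + n + 1)
        (t := (x : ℝ) ^ (7 / 8 : ℝ)) (by nlinarith) hn.2 (by positivity) h7 h16)
    refine h1.trans (le_of_eq ?_)
    rw [mul_div_assoc]
  calc (G.card : ℝ) ≤ _ := hc
    _ ≤ (Ca + Cb + Cs + 12) * (x / Real.log x ^ (5 / 4 : ℝ)) := by linarith
    _ ≤ (Ca + Cb + Cs + Ct + 12) * (x / Real.log x ^ (5 / 4 : ℝ)) :=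
        mul_le_mul_of_nonneg_right (by linarith) hxl
    _ = _ := by rw [mul_div_assoc]

end Pool.Agent.H49.PPR
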