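import Pool.Agent.H49.PPR.QC

/-!
PPR D1: local density of the excluded classes, v = u w, p ≥ 5.

Work in ZMod p (LB_transfer).  Fb = {rq - st = 1, rt + st + sq = 0, u = r²+rs+s² not a square}: for given (r,s) with u ≠ 0 the equations
 r q - s t = 1, (r+s) t + s q = 0 have exactly one solution: t = -s/u, q = (r+s)/u.  So #Fb = #{(r,s) : r²+rs+s² not a square} ≥ (p-1)²/2 (cnt_eis) and ≤ p².
`slc1_lower4`: B1 = {p ∣ F1} ∪ Fb for p ≡ 1 mod 4, disjoint: if n := rt+st+sq = 0 then F1 = u w = n²+n+1 = 1 (identity (r²+rs+s²)(t²+tq+q²) =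
 n² + n d + d², n = rt+st+sq, d = rq - st).   `slc1_lower`: monotonicity.   `slc1_upper`: union bound (for p ≡ 3 mod 4 B1 = {p ∣ F1}).
`slc_F1_zero`: p ≡ 2 mod 3: r²+rs+s² = 0 implies r = s = 0 (4(r²+rs+s²) = (2r+s)²+3s², -3 is not a square mod p), impossible with rq - st = 1.
`dn` = slc / (p(p-1)(p+1)) (LB_cast_top); slc p (p ∣ F1) = 2(p-1)(2p-1) for p ≡ 1 mod 3 (slc_F1, dn_F1).
 (p-1)²/2 / (p(p-1)(p+1)) = (1/2)(1/p) - (1/p - 1/(p+1)).
-/

set_option autoImplicit false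

namespace Pool.Agent.H49.PPR

open Finset Pool.Agent.H37.PPC Pool.Agent.H37.PPD Pool.Agent.H37.PPE

/-- the norm form vanishes mod `p` -/
private def D1_Sf (p : ℕ) (r s t q : ZMod p) : Prop :=
  (r ^ 2 + r * s + s ^ 2) * (t ^ 2 + t * q + q ^ 2) = 0

private def D1_Fb (p : ℕ) (r s t q : ZMod p) : Prop :=
  r * t + s * t + s * q = 0 ∧ ¬ IsSquare (r ^ 2 + r * s + s ^ 2)

private def D1_B (p : ℕ) (r s t q : ZMod p) : Prop :=
  D1_Sf p r s t q ∨ (p % 4 = 1 ∧ D1_Fb p r s t q)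

private theorem D1_hS (p : ℕ) (r s t q : ℤ) :
    (p : ℤ) ∣ F1 r s t q ↔ D1_Sf p r s t q := by
  rw [LA_dvd]
  unfold F1 D1_Sf
  push_cast
  rfl

private theorem D1_hB (p : ℕ) (r s t q : ℤ) : B1 p r s t q ↔ D1_B p r s t q := by
  unfold B1 D1_B D1_Fb
  rw [D1_hS, LA_dvd]
  push_cast
  rfl

theorem Per_B1 (p : ℕ) : Per p (B1 p) := by
  intro r s t q r' s' t' q' hr hs ht hq
  rw [D1_hB, D1_hB]
  rw [LA_dvd, Int.cast_sub, sub_eq_zero] at hr hs ht hq
  rw [hr, hs, ht, hq]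

private theorem D1_mono (p : ℕ) (S1 S2 : ℤ → ℤ → ℤ → ℤ → Prop)
    (h : ∀ r s t q, S1 r s t q → S2 r s t q) : slc p S1 ≤ slc p S2 := by
  classical
  unfold slc
  apply card_le_card
  intro x hx
  rw [mem_filter] at hx ⊢
  exact ⟨hx.1, hx.2.1, h _ _ _ _ hx.2.2⟩

theorem slc1_lower (p : ℕ) : slc p (fun r s t q => (p : ℤ) ∣ F1 r s t q) ≤ slc p (B1 p) :=
  D1_mono p _ _ (fun _ _ _ _ h => Or.inl h)

private theorem D1_ne {p : ℕ} [Fact p.Prime] {r s : ZMod p}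
    (h : ¬ IsSquare (r ^ 2 + r * s + s ^ 2)) : r ^ 2 + r * s + s ^ 2 ≠ 0 := by
  intro h0
  apply h
  rw [h0]
  exact IsSquare.zero

private theorem D1_Fb_lower (p : ℕ) [Fact p.Prime] (h5 : 5 ≤ p) :
    (p - 1) * (p - 1) ≤ 2 * (LB_set p (D1_Fb p)).card := by
  classical
  refine (cnt_eis p h5).trans (Nat.mul_le_mul_left 2 ?_)
  apply card_le_card_of_injOn (fun z : ZMod p × ZMod p =>
    (z.1, z.2, -z.2 / (z.1 ^ 2 + z.1 * z.2 + z.2 ^ 2),
      (z.1 + z.2) / (z.1 ^ 2 + z.1 * z.2 + z.2 ^ 2)))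
  · rintro ⟨r, s⟩ hz
    have hz' : ¬ IsSquare (r ^ 2 + r * s + s ^ 2) := (mem_filter.1 hz).2
    have hu := D1_ne hz'
    refine (LB_mem_set p _ _).2 ⟨?_, ?_, hz'⟩
    · show r * ((r + s) / (r ^ 2 + r * s + s ^ 2)) - s * (-s / (r ^ 2 + r * s + s ^ 2)) = 1
      have e : r * ((r + s) / (r ^ 2 + r * s + s ^ 2)) - s * (-s / (r ^ 2 + r * s + s ^ 2)) =
          (r ^ 2 + r * s + s ^ 2) / (r ^ 2 + r * s + s ^ 2) := by ring
      rw [e, div_self hu]
    · show r * (-s / (r ^ 2 + r * s + s ^ 2)) + s * (-s / (r ^ 2 + r * s + s ^ 2)) +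
        s * ((r + s) / (r ^ 2 + r * s + s ^ 2)) = 0
      ring
  · rintro ⟨r, s⟩ _ ⟨r', s'⟩ _ h
    simp only [Prod.mk.injEq] at h
    rw [h.1, h.2.1]

private theorem D1_Fb_upper (p : ℕ) [Fact p.Prime] : (LB_set p (D1_Fb p)).card ≤ p * p := by
  classical
  have h1 : (LB_set p (D1_Fb p)).card ≤ (univ : Finset (ZMod p × ZMod p)).card := by
    apply card_le_card_of_injOn (fun x => (x.1, x.2.1))
    · intro x _
      exact mem_coe.2 (mem_univ _)
    · rintro ⟨r, s, t, q⟩ hx ⟨r', s', t', q'⟩ hx' h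
      obtain ⟨h1, h2, h3⟩ := (LB_mem_set p _ _).1 hx
      obtain ⟨h1', h2', _⟩ := (LB_mem_set p _ _).1 hx'
      simp only at h1 h2 h3 h1' h2'
      simp only [Prod.mk.injEq] at h
      obtain ⟨e1, e2⟩ := h
      subst e1 e2
      have hu := D1_ne h3
      have et : t = t' := by
        apply mul_left_cancel₀ hu
        linear_combination r * h2 - s * h1 - r * h2' + s * h1'
      have eq : q = q' := by
        apply mul_left_cancel₀ hu
        linear_combination (r + s) * h1 + s * h2 - (r + s) * h1' - s * h2'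
      rw [et, eq]
  rw [card_univ, Fintype.card_prod, ZMod.card] at h1
  exact h1

private theorem D1_disj (p : ℕ) [Fact p.Prime] :
    Disjoint (LB_set p (D1_Sf p)) (LB_set p (D1_Fb p)) := by
  rw [disjoint_left]
  rintro ⟨r, s, t, q⟩ hx hx'
  obtain ⟨h1, h2⟩ := (LB_mem_set p _ _).1 hx
  obtain ⟨_, h3, _⟩ := (LB_mem_set p _ _).1 hx'
  unfold D1_Sf at h2
  simp only at h1 h2 h3
  have e : (r ^ 2 + r * s + s ^ 2) * (t ^ 2 + t * q + q ^ 2) =
      (r * t + s * t + s * q) ^ 2 + (r * t + s * t + s * q) * (r * q - s * t) +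
        (r * q - s * t) ^ 2 := by ring
  rw [e, h1, h3] at h2
  have h4 : (1 : ZMod p) = 0 := by linear_combination h2
  exact one_ne_zero h4

theorem slc1_lower4 (p : ℕ) (hp : p.Prime) (h5 : 5 ≤ p) (h4 : p % 4 = 1) :
    2 * slc p (fun r s t q => (p : ℤ) ∣ F1 r s t q) + (p - 1) * (p - 1) ≤ 2 * slc p (B1 p) := by
  classical
  have : Fact p.Prime := ⟨hp⟩
  rw [LB_transfer p _ (D1_Sf p) (D1_hS p), LB_transfer p _ (D1_B p) (D1_hB p)]
  have h1 := D1_Fb_lower p h5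
  have h2 : (LB_set p (D1_Sf p)).card + (LB_set p (D1_Fb p)).card ≤ (LB_set p (D1_B p)).card := by
    rw [← card_union_of_disjoint (D1_disj p)]
    apply card_le_card
    intro x hx
    rw [mem_union] at hx
    rw [LB_mem_set]
    rcases hx with hx | hx
    · obtain ⟨a, b⟩ := (LB_mem_set p _ _).1 hx
      exact ⟨a, Or.inl b⟩
    · obtain ⟨a, b⟩ := (LB_mem_set p _ _).1 hx
      exact ⟨a, Or.inr ⟨h4, b⟩⟩
  omega

theorem slc1_upper (p : ℕ) (hp : p.Prime) (h5 : 5 ≤ p) :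
    slc p (B1 p) ≤ slc p (fun r s t q => (p : ℤ) ∣ F1 r s t q) + p * p := by
  classical
  have : Fact p.Prime := ⟨hp⟩
  rw [LB_transfer p _ (D1_Sf p) (D1_hS p), LB_transfer p _ (D1_B p) (D1_hB p)]
  have h1 := D1_Fb_upper p
  have h2 : (LB_set p (D1_B p)).card ≤ (LB_set p (D1_Sf p) ∪ LB_set p (D1_Fb p)).card := by
    apply card_le_card
    intro x hx
    obtain ⟨a, b⟩ := (LB_mem_set p _ _).1 hx
    rw [mem_union]
    rcases b with b | b
    · exact Or.inl ((LB_mem_set p _ _).2 ⟨a, b⟩)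
    · exact Or.inr ((LB_mem_set p _ _).2 ⟨a, b.2⟩)
  have h3 := card_union_le (LB_set p (D1_Sf p)) (LB_set p (D1_Fb p))
  omega

private theorem D1_noroot (p : ℕ) [Fact p.Prime] (h3 : p % 3 = 2) (h5 : 5 ≤ p) (r s : ZMod p)
    (h : r ^ 2 + r * s + s ^ 2 = 0) : r = 0 ∧ s = 0 := by
  have hs : s = 0 := by
    by_contra hs
    obtain ⟨x, hx⟩ : ∃ x, x = r / s := ⟨_, rfl⟩
    have hr : r = x * s := by rw [hx, div_mul_cancel₀ _ hs]
    rw [hr] at h
    have h1 : s ^ 2 * (x ^ 2 + x + 1) = 0 := by linear_combination h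
    have h2 : x ^ 2 + x + 1 = 0 := (mul_eq_zero.1 h1).resolve_left (pow_ne_zero 2 hs)
    have hx0 : x ≠ 0 := by
      rintro rfl
      have : (1 : ZMod p) = 0 := by linear_combination h2
      exact one_ne_zero this
    have hx3 : x ^ 3 = 1 := by linear_combination (x - 1) * h2
    have hf := ZMod.pow_card_sub_one_eq_one hx0
    have e : p - 1 = 3 * ((p - 1) / 3) + 1 := by omega
    rw [e, pow_add, pow_mul, hx3, one_pow, one_mul, pow_one] at hf
    rw [hf] at h2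
    have h33 : ((3 : ℕ) : ZMod p) = 0 := by
      push_cast
      linear_combination h2
    rw [ZMod.natCast_eq_zero_iff] at h33
    have := Nat.le_of_dvd (by norm_num) h33
    omega
  rw [hs] at h
  refine ⟨?_, hs⟩
  have h1 : r ^ 2 = 0 := by linear_combination h
  exact pow_eq_zero_iff (two_ne_zero) |>.1 h1

theorem slc_F1_zero (p : ℕ) (hp : p.Prime) (h3 : p % 3 = 2) (h5 : 5 ≤ p) :
    slc p (fun r s t q => (p : ℤ) ∣ F1 r s t q) = 0 := by
  classical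
  have : Fact p.Prime := ⟨hp⟩
  rw [LB_transfer p _ (D1_Sf p) (D1_hS p), card_eq_zero, eq_empty_iff_forall_notMem]
  rintro ⟨r, s, t, q⟩ hx
  obtain ⟨h1, h2⟩ := (LB_mem_set p _ _).1 hx
  unfold D1_Sf at h2
  simp only at h1 h2
  rcases mul_eq_zero.1 h2 with h | h
  · obtain ⟨e1, e2⟩ := D1_noroot p h3 h5 r s h
    rw [e1, e2] at h1
    have h4 : (1 : ZMod p) = 0 := by linear_combination -h1
    exact one_ne_zero h4
  · obtain ⟨e1, e2⟩ := D1_noroot p h3 h5 t q h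
    rw [e1, e2] at h1
    have h4 : (1 : ZMod p) = 0 := by linear_combination -h1
    exact one_ne_zero h4

private theorem D1_F1 (p : ℕ) (hp : p.Prime) (h5 : 5 ≤ p) :
    (slc p (fun r s t q => (p : ℤ) ∣ F1 r s t q) : ℝ) =
      (if p % 3 = 1 then rho p else 0) * ((p : ℝ) * ((p : ℝ) - 1) * ((p : ℝ) + 1)) := by
  have h0 : p % 3 ≠ 0 := by
    intro h
    have h1 : 3 ∣ p := Nat.dvd_of_mod_eq_zero h
    have := (Nat.prime_dvd_prime_iff_eq Nat.prime_three hp).1 h1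
    omega
  have hP : (5 : ℝ) ≤ p := by exact_mod_cast h5
  by_cases h3 : p % 3 = 1
  · rw [if_pos h3, ← dn_F1 p hp h3]
    unfold dn
    rw [LB_cast_top p hp, div_mul_cancel₀]
    have h1 : (0 : ℝ) < p := by linarith
    have h2 : (0 : ℝ) < (p : ℝ) - 1 := by linarith
    positivity
  · rw [if_neg h3, slc_F1_zero p hp (by omega) h5]
    simp

theorem dn1_lower (p : ℕ) (hp : p.Prime) (h5 : 5 ≤ p) :
    (if p % 3 = 1 then rho p else 0) +
      (if p % 4 = 1 then (1 / 2) * ((1 : ℝ) / p) - ((1 : ℝ) / p - 1 / (p + 1)) else 0) ≤ dn p (B1 p) := by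
  have hP : (5 : ℝ) ≤ p := by exact_mod_cast h5
  have h1 : (0 : ℝ) < p := by linarith
  have h2 : (0 : ℝ) < (p : ℝ) - 1 := by linarith
  have hT : 0 < (p : ℝ) * ((p : ℝ) - 1) * ((p : ℝ) + 1) := by positivity
  have hF := D1_F1 p hp h5
  unfold dn
  rw [LB_cast_top p hp, le_div_iff₀ hT, add_mul, ← hF]
  by_cases h4 : p % 4 = 1
  · rw [if_pos h4]
    have h6 := slc1_lower4 p hp h5 h4
    have h7 : 2 * (slc p (fun r s t q => (p : ℤ) ∣ F1 r s t q) : ℝ) +
        ((p : ℝ) - 1) * ((p : ℝ) - 1) ≤ 2 * (slc p (B1 p) : ℝ) := by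
      have h8 : ((p - 1 : ℕ) : ℝ) = (p : ℝ) - 1 := by
        rw [Nat.cast_sub hp.one_le, Nat.cast_one]
      rw [← h8]
      exact_mod_cast h6
    have h9 : ((1 / 2) * ((1 : ℝ) / p) - ((1 : ℝ) / p - 1 / (p + 1))) *
        ((p : ℝ) * ((p : ℝ) - 1) * ((p : ℝ) + 1)) = ((p : ℝ) - 1) * ((p : ℝ) - 1) / 2 := by
      field_simp
      ring
    rw [h9]
    linarith
  · rw [if_neg h4, zero_mul, add_zero]
    exact_mod_cast slc1_lower p

theorem dn1_bd (p : ℕ) (hp : p.Prime) (h5 : 5 ≤ p) (h : p % 3 = 1 ∨ p % 4 = 1) :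
    0 < dn p (B1 p) ∧ dn p (B1 p) < 1 ∧ dn p (B1 p) * p ≤ 6 := by
  have hP : (5 : ℝ) ≤ p := by exact_mod_cast h5
  have h1 : (0 : ℝ) < p := by linarith
  have h2 : (0 : ℝ) < (p : ℝ) - 1 := by linarith
  have hT : 0 < (p : ℝ) * ((p : ℝ) - 1) * ((p : ℝ) + 1) := by positivity
  have hrho := rho_bd p h5
  have hl := dn1_lower p hp h5
  have hx : 0 < (1 / 2) * ((1 : ℝ) / p) - ((1 : ℝ) / p - 1 / (p + 1)) := by
    have e : (1 / 2) * ((1 : ℝ) / p) - ((1 : ℝ) / p - 1 / (p + 1)) =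
        ((p : ℝ) - 1) / (2 * p * (p + 1)) := by
      field_simp
      ring
    rw [e]
    positivity
  -- the upper bound
  have hF := D1_F1 p hp h5
  have hF2 : (slc p (fun r s t q => (p : ℤ) ∣ F1 r s t q) : ℝ) ≤
      2 * ((p : ℝ) - 1) * (2 * (p : ℝ) - 1) := by
    rw [hF]
    by_cases h3 : p % 3 = 1
    · rw [if_pos h3]
      apply le_of_eq
      unfold rho
      field_simp
    · rw [if_neg h3, zero_mul]
      have : (0 : ℝ) < 2 * (p : ℝ) - 1 := by linarith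
      positivity
  have hU : (slc p (B1 p) : ℝ) ≤ 2 * ((p : ℝ) - 1) * (2 * (p : ℝ) - 1) + p * p := by
    have h6 := slc1_upper p hp h5
    have h7 : (slc p (B1 p) : ℝ) ≤
        (slc p (fun r s t q => (p : ℤ) ∣ F1 r s t q) : ℝ) + p * p := by exact_mod_cast h6
    linarith
  refine ⟨?_, ?_, ?_⟩
  · refine lt_of_lt_of_le ?_ hl
    by_cases h3 : p % 3 = 1
    · rw [if_pos h3]
      by_cases h4 : p % 4 = 1
      · rw [if_pos h4]
        linarith [hrho.1]
      · rw [if_neg h4]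
        linarith [hrho.1]
    · rw [if_neg h3, if_pos (h.resolve_left h3)]
      linarith
  · unfold dn
    rw [LB_cast_top p hp, div_lt_one hT]
    refine lt_of_le_of_lt hU ?_
    nlinarith [mul_nonneg (sub_nonneg.2 hP) (mul_pos h1 h1).le]
  · unfold dn
    rw [LB_cast_top p hp, div_mul_eq_mul_div, div_le_iff₀ hT]
    have h8 : (slc p (B1 p) : ℝ) * p ≤
        (2 * ((p : ℝ) - 1) * (2 * (p : ℝ) - 1) + p * p) * p :=
      mul_le_mul_of_nonneg_right hU h1.le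
    refine h8.trans ?_
    nlinarith [mul_nonneg (sub_nonneg.2 hP) h1.le, mul_pos h1 h1,
      mul_nonneg (mul_nonneg (sub_nonneg.2 hP) h1.le) h1.le]

end Pool.Agent.H49.PPR
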