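import Pool.Agent.H49.PPR.QC

/-!
PPR D2: local density of the excluded classes, v prime, p ≡ 1 mod 4.

Let ι ∈ ZMod p, ι² = -1 (LB_consts shows how to get it; p ≡ 1 mod 4: ZMod.exists_sq_eq_neg_one_iff).  Work in ZMod p (LB_transfer).
 P = t + ι r, Q = q + ι s, P' = t - ι r, Q' = q - ι s (linear bijection).
 rq - st = 1 ⟺ P Q' - P' Q = 2 ι;   N' = r²-3s²+t²-3q² = P P' - 3 Q Q';   W := (t²-3q²-(r²-3s²)) + 2ι(rt-3sq) = P² - 3Q²   (for -ι the same
 with P', Q': it is P'² - 3 Q'², and (P²-3Q²)(P'²-3Q'²) = (PP'-3QQ')² - 3(PQ'-P'Q)² = 4 + 12 = 16 if N' = 2σ, so both are nonsquares or none).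
 Forbidden set Fb = {det = 1, N' = 2σ, P² - 3Q² not a square (for one ι with ι² = -1, equivalently for all)}: for given (P,Q) with D = P²-3Q² ≠ 0
 the equations P Q' - Q P' = 2ι, P P' - 3 Q Q' = 2σ have exactly one solution: P' = (2σ P + 6 ι Q)/D, Q' = (2 ι P + 2 σ Q)/D.
 So #Fb = #{(P,Q) : P² - 3Q² not a square} ≥ (p-1)²/2 (cnt_form) and ≤ p².
`slc2_lower`: B2 = {p ∣ F2} ∪ Fb, disjoint (N' = ±2 and N'²+12 = 0 would give p ∣ 16).
`dn` = slc / (p(p-1)(p+1)) (slc_top / LB_cast_top); slc p (p ∣ F2) = 2(p-1)(2p-1) for p ≡ 1 mod 12 (slc_F2; `LB_rho`, `dn_F2`), and = 0 for p ≡ 2 mod 3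
 (N'² = -12 has no solution with p ≡ 2 mod 3: -3 is not a square mod p).
 (p-1)²/2 / (p(p-1)(p+1)) = (p-1)/(2p(p+1)) = (1/2)(1/p) - (1/p - 1/(p+1)).
-/

set_option autoImplicit false

namespace Pool.Agent.H49.PPR

open Finset Pool.Agent.H37.PPC Pool.Agent.H37.PPD Pool.Agent.H37.PPE

theorem Per_B2 (σ : ℤ) (p : ℕ) : Per p (B2 σ p) := by
  intro r s t q r' s' t' q' h1 h2 h3 h4
  exact not_congr (Per_G2 σ p r s t q r' s' t' q' h1 h2 h3 h4)

private def D2_N (p : ℕ) (r s t q : ZMod p) : ZMod p := r ^ 2 - 3 * s ^ 2 + (t ^ 2 - 3 * q ^ 2)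

private def D2_W (p : ℕ) (ι r s t q : ZMod p) : ZMod p :=
  (t ^ 2 - 3 * q ^ 2 - (r ^ 2 - 3 * s ^ 2)) + 2 * ι * (r * t - 3 * s * q)

private def D2_Sf (p : ℕ) (r s t q : ZMod p) : Prop := D2_N p r s t q ^ 2 + 12 = 0

private def D2_S0 (p : ℕ) (σ : ℤ) (r s t q : ZMod p) : Prop := D2_N p r s t q = 2 * (σ : ZMod p)

private def D2_Fb (p : ℕ) (σ : ℤ) (ι r s t q : ZMod p) : Prop :=
  D2_N p r s t q = 2 * (σ : ZMod p) ∧ ¬ IsSquare (D2_W p ι r s t q)

private def D2_B (p : ℕ) (σ : ℤ) (r s t q : ZMod p) : Prop :=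
  D2_Sf p r s t q ∨ (D2_N p r s t q = 2 * (σ : ZMod p) ∧
    ∃ ι : ZMod p, ι ^ 2 = -1 ∧ ¬ IsSquare (D2_W p ι r s t q))

private theorem D2_hS (p : ℕ) (r s t q : ℤ) :
    (p : ℤ) ∣ F2 r s t q ↔ D2_Sf p r s t q := by
  rw [LA_dvd]
  unfold F2 D2_Sf D2_N
  push_cast
  rfl

private theorem D2_hB (p : ℕ) (σ : ℤ) (r s t q : ℤ) : B2 σ p r s t q ↔ D2_B p σ r s t q := by
  have h1 : (p : ℤ) ∣ (r ^ 2 - 3 * s ^ 2 + (t ^ 2 - 3 * q ^ 2)) - 2 * σ ↔
      D2_N p r s t q = 2 * (σ : ZMod p) := by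
    rw [LA_dvd]
    unfold D2_N
    push_cast
    rw [sub_eq_zero]
  have h2 : ∀ ι : ZMod p, ((t ^ 2 - 3 * q ^ 2 - (r ^ 2 - 3 * s ^ 2) : ℤ) : ZMod p)
        + 2 * ι * ((r * t - 3 * s * q : ℤ) : ZMod p) = D2_W p ι r s t q := by
    intro ι
    unfold D2_W
    push_cast
    rfl
  unfold B2 G2 D2_B
  rw [not_and_or, not_not, not_not, h1, D2_hS]
  simp only [h2]

private theorem D2_iota (p : ℕ) [Fact p.Prime] (h4 : p % 4 = 1) :
    ∃ ι : ZMod p, ι ^ 2 = -1 ∧ ι ≠ 0 ∧ (2 : ZMod p) ≠ 0 := by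
  have h1 : IsSquare (-1 : ZMod p) := ZMod.exists_sq_eq_neg_one_iff.2 (by omega)
  obtain ⟨ι, hι⟩ := h1
  refine ⟨ι, by rw [sq, ← hι], ?_, ?_⟩
  · rintro rfl
    rw [mul_zero] at hι
    have : (1 : ZMod p) = 0 := by linear_combination -hι
    exact one_ne_zero this
  · intro h
    have h' : ((2 : ℕ) : ZMod p) = 0 := by exact_mod_cast h
    rw [ZMod.natCast_eq_zero_iff] at h'
    have := (Nat.prime_dvd_prime_iff_eq (Fact.out : p.Prime) Nat.prime_two).1 h'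
    omega

private theorem D2_sig {p : ℕ} {σ : ℤ} (hσ : σ = 1 ∨ σ = -1) : (σ : ZMod p) ^ 2 = 1 := by
  rcases hσ with rfl | rfl <;> simp

private theorem D2_Wid {p : ℕ} {ι r s t q : ZMod p} (hι : ι ^ 2 = -1) :
    D2_W p ι r s t q = (t + ι * r) ^ 2 - 3 * (q + ι * s) ^ 2 := by
  unfold D2_W
  linear_combination (-(r ^ 2) + 3 * s ^ 2) * hι

private theorem D2_Nid {p : ℕ} {ι r s t q : ZMod p} (hι : ι ^ 2 = -1) :
    D2_N p r s t q = (t + ι * r) * (t - ι * r) - 3 * ((q + ι * s) * (q - ι * s)) := by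
  unfold D2_N
  linear_combination (r ^ 2 - 3 * s ^ 2) * hι

private theorem D2_Did {p : ℕ} {ι r s t q : ZMod p} (hd : r * q - s * t = 1) :
    (t + ι * r) * (q - ι * s) - (t - ι * r) * (q + ι * s) = 2 * ι := by
  linear_combination 2 * ι * hd

private theorem D2_prod {p : ℕ} {ι r s t q : ZMod p} {σ : ℤ} (hσ : σ = 1 ∨ σ = -1)
    (hι : ι ^ 2 = -1) (hd : r * q - s * t = 1) (hN : D2_N p r s t q = 2 * (σ : ZMod p)) :
    ((t + ι * r) ^ 2 - 3 * (q + ι * s) ^ 2) * ((t - ι * r) ^ 2 - 3 * (q - ι * s) ^ 2) = 16 := by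
  have h1 := D2_Did (ι := ι) hd
  rw [D2_Nid hι] at hN
  have h3 := D2_sig (p := p) hσ
  have e : ((t + ι * r) ^ 2 - 3 * (q + ι * s) ^ 2) * ((t - ι * r) ^ 2 - 3 * (q - ι * s) ^ 2) =
      ((t + ι * r) * (t - ι * r) - 3 * ((q + ι * s) * (q - ι * s))) ^ 2 -
        3 * ((t + ι * r) * (q - ι * s) - (t - ι * r) * (q + ι * s)) ^ 2 := by ring
  rw [e, hN, h1]
  linear_combination 4 * h3 - 12 * hι

private theorem D2_16 {p : ℕ} [Fact p.Prime] (h2 : (2 : ZMod p) ≠ 0) : (16 : ZMod p) ≠ 0 := by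
  have : (16 : ZMod p) = 2 ^ 4 := by norm_num
  rw [this]
  exact pow_ne_zero 4 h2

private theorem D2_S0_upper (p : ℕ) [Fact p.Prime] (h4 : p % 4 = 1) (σ : ℤ)
    (hσ : σ = 1 ∨ σ = -1) : (LB_set p (D2_S0 p σ)).card ≤ p * p := by
  classical
  obtain ⟨ι, hι, hι0, h2⟩ := D2_iota p h4
  have h1 : (LB_set p (D2_S0 p σ)).card ≤ (univ : Finset (ZMod p × ZMod p)).card := by
    apply card_le_card_of_injOn (fun x => (x.2.2.1 + ι * x.1, x.2.2.2 + ι * x.2.1))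
    · intro x _
      exact mem_coe.2 (mem_univ _)
    · rintro ⟨r, s, t, q⟩ hx ⟨r', s', t', q'⟩ hx' h
      obtain ⟨hd, hN⟩ := (LB_mem_set p _ _).1 hx
      obtain ⟨hd', hN'⟩ := (LB_mem_set p _ _).1 hx'
      unfold D2_S0 at hN hN'
      simp only at hd hN hd' hN'
      simp only [Prod.mk.injEq] at h
      obtain ⟨eP, eQ⟩ := h
      have hp1 := D2_prod hσ hι hd hN
      have hW : (t + ι * r) ^ 2 - 3 * (q + ι * s) ^ 2 ≠ 0 := by
        intro h0
        rw [h0, zero_mul] at hp1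
        exact D2_16 h2 hp1.symm
      have a1 := D2_Did (ι := ι) hd
      have a1' := D2_Did (ι := ι) hd'
      rw [D2_Nid hι] at hN hN'
      rw [← eP, ← eQ] at a1' hN'
      have eP' : t - ι * r = t' - ι * r' := by
        apply mul_left_cancel₀ hW
        linear_combination (t + ι * r) * hN + 3 * (q + ι * s) * a1 - (t + ι * r) * hN' -
          3 * (q + ι * s) * a1'
      have eQ' : q - ι * s = q' - ι * s' := by
        apply mul_left_cancel₀ hW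
        linear_combination (t + ι * r) * a1 + (q + ι * s) * hN - (t + ι * r) * a1' -
          (q + ι * s) * hN'
      have b1 : t = t' := by
        apply mul_left_cancel₀ h2
        linear_combination eP + eP'
      have b2 : q = q' := by
        apply mul_left_cancel₀ h2
        linear_combination eQ + eQ'
      have b3 : r = r' := by
        apply mul_left_cancel₀ hι0
        rw [b1] at eP
        linear_combination eP
      have b4 : s = s' := by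
        apply mul_left_cancel₀ hι0
        rw [b2] at eQ
        linear_combination eQ
      rw [b1, b2, b3, b4]
  rw [card_univ, Fintype.card_prod, ZMod.card] at h1
  exact h1

private theorem D2_Fb_lower (p : ℕ) [Fact p.Prime] (h4 : p % 4 = 1) (σ : ℤ) (ι : ZMod p)
    (hι : ι ^ 2 = -1) (hι0 : ι ≠ 0) (h2 : (2 : ZMod p) ≠ 0) :
    (p - 1) * (p - 1) ≤ 2 * (LB_set p (D2_Fb p σ ι)).card := by
  classical
  have hp := (Fact.out : p.Prime)
  have h3 : (3 : ZMod p) ≠ 0 := by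
    intro h
    have h' : ((3 : ℕ) : ZMod p) = 0 := by exact_mod_cast h
    rw [ZMod.natCast_eq_zero_iff] at h'
    have := (Nat.prime_dvd_prime_iff_eq hp Nat.prime_three).1 h'
    omega
  refine (cnt_form p (by omega) 3 h3).trans (Nat.mul_le_mul_left 2 ?_)
  set P' : ZMod p × ZMod p → ZMod p := fun z =>
    (2 * σ * z.1 + 6 * ι * z.2) / (z.1 ^ 2 - 3 * z.2 ^ 2) with hP'
  set Q' : ZMod p × ZMod p → ZMod p := fun z =>
    (2 * ι * z.1 + 2 * σ * z.2) / (z.1 ^ 2 - 3 * z.2 ^ 2) with hQ'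
  have hι4 : (2 * ι) ≠ 0 := mul_ne_zero h2 hι0
  have key : ∀ z : ZMod p × ZMod p,
      (z.1 + P' z) / 2 + ι * ((z.1 - P' z) / (2 * ι)) = z.1 ∧
      (z.2 + Q' z) / 2 + ι * ((z.2 - Q' z) / (2 * ι)) = z.2 ∧
      (z.1 + P' z) / 2 - ι * ((z.1 - P' z) / (2 * ι)) = P' z ∧
      (z.2 + Q' z) / 2 - ι * ((z.2 - Q' z) / (2 * ι)) = Q' z := by
    intro z
    refine ⟨?_, ?_, ?_, ?_⟩ <;> field_simp <;> ring
  apply card_le_card_of_injOn (fun z : ZMod p × ZMod p =>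
    ((z.1 - P' z) / (2 * ι), (z.2 - Q' z) / (2 * ι), (z.1 + P' z) / 2, (z.2 + Q' z) / 2))
  · intro z hz
    have hz' : ¬ IsSquare (z.1 ^ 2 - 3 * z.2 ^ 2) := (mem_filter.1 hz).2
    have hW : z.1 ^ 2 - 3 * z.2 ^ 2 ≠ 0 := by
      intro h0
      apply hz'
      rw [h0]
      exact IsSquare.zero
    obtain ⟨k1, k2, k3, k4⟩ := key z
    have c1 : z.1 * Q' z - P' z * z.2 = 2 * ι := by
      have : z.1 * Q' z - P' z * z.2 =
          2 * ι * ((z.1 ^ 2 - 3 * z.2 ^ 2) / (z.1 ^ 2 - 3 * z.2 ^ 2)) := by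
        simp only [hP', hQ']
        ring
      rw [this, div_self hW, mul_one]
    have c2 : z.1 * P' z - 3 * (z.2 * Q' z) = 2 * (σ : ZMod p) := by
      have : z.1 * P' z - 3 * (z.2 * Q' z) =
          2 * σ * ((z.1 ^ 2 - 3 * z.2 ^ 2) / (z.1 ^ 2 - 3 * z.2 ^ 2)) := by
        simp only [hP', hQ']
        ring
      rw [this, div_self hW, mul_one]
    refine (LB_mem_set p _ _).2 ⟨?_, ?_, ?_⟩
    · simp only
      have e : (z.1 - P' z) / (2 * ι) * ((z.2 + Q' z) / 2) -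
          (z.2 - Q' z) / (2 * ι) * ((z.1 + P' z) / 2) = (z.1 * Q' z - P' z * z.2) / (2 * ι) := by
        field_simp
        ring
      rw [e, c1, div_self hι4]
    · simp only
      rw [D2_Nid hι, k1, k2, k3, k4]
      exact c2
    · simp only
      rw [D2_Wid hι, k1, k2]
      exact hz'
  · intro z _ z' _ h
    simp only [Prod.mk.injEq] at h
    obtain ⟨e1, e2, e3, e4⟩ := h
    obtain ⟨k1, k2, _, _⟩ := key z
    obtain ⟨k1', k2', _, _⟩ := key z'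
    rw [e1, e3, k1'] at k1
    rw [e2, e4, k2'] at k2
    exact Prod.ext k1.symm k2.symm

theorem slc2_lower (p : ℕ) (hp : p.Prime) (h4 : p % 4 = 1) (σ : ℤ) (hσ : σ = 1 ∨ σ = -1) :
    2 * slc p (fun r s t q => (p : ℤ) ∣ F2 r s t q) + (p - 1) * (p - 1) ≤ 2 * slc p (B2 σ p) := by
  classical
  have : Fact p.Prime := ⟨hp⟩
  obtain ⟨ι, hι, hι0, h2⟩ := D2_iota p h4
  rw [LB_transfer p _ (D2_Sf p) (D2_hS p), LB_transfer p _ (D2_B p σ) (D2_hB p σ)]
  have h1 := D2_Fb_lower p h4 σ ι hι hι0 h2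
  have hdisj : Disjoint (LB_set p (D2_Sf p)) (LB_set p (D2_Fb p σ ι)) := by
    rw [disjoint_left]
    intro x hx hx'
    obtain ⟨_, a⟩ := (LB_mem_set p _ _).1 hx
    obtain ⟨_, b, _⟩ := (LB_mem_set p _ _).1 hx'
    unfold D2_Sf at a
    rw [b] at a
    apply D2_16 h2
    have := D2_sig (p := p) hσ
    linear_combination a - 4 * this
  have h3 : (LB_set p (D2_Sf p)).card + (LB_set p (D2_Fb p σ ι)).card ≤
      (LB_set p (D2_B p σ)).card := by
    rw [← card_union_of_disjoint hdisj]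
    apply card_le_card
    intro x hx
    rw [mem_union] at hx
    rw [LB_mem_set]
    rcases hx with hx | hx
    · obtain ⟨a, b⟩ := (LB_mem_set p _ _).1 hx
      exact ⟨a, Or.inl b⟩
    · obtain ⟨a, b⟩ := (LB_mem_set p _ _).1 hx
      exact ⟨a, Or.inr ⟨b.1, ι, hι, b.2⟩⟩
  omega

theorem slc2_upper (p : ℕ) (hp : p.Prime) (h4 : p % 4 = 1) (σ : ℤ) (hσ : σ = 1 ∨ σ = -1) :
    slc p (B2 σ p) ≤ slc p (fun r s t q => (p : ℤ) ∣ F2 r s t q) + p * p := by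
  classical
  have : Fact p.Prime := ⟨hp⟩
  rw [LB_transfer p _ (D2_Sf p) (D2_hS p), LB_transfer p _ (D2_B p σ) (D2_hB p σ)]
  have h1 := D2_S0_upper p h4 σ hσ
  have h2 : (LB_set p (D2_B p σ)).card ≤ (LB_set p (D2_Sf p) ∪ LB_set p (D2_S0 p σ)).card := by
    apply card_le_card
    intro x hx
    obtain ⟨a, b⟩ := (LB_mem_set p _ _).1 hx
    rw [mem_union]
    rcases b with b | b
    · exact Or.inl ((LB_mem_set p _ _).2 ⟨a, b⟩)
    · exact Or.inr ((LB_mem_set p _ _).2 ⟨a, b.1⟩)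
  have h3 := card_union_le (LB_set p (D2_Sf p)) (LB_set p (D2_S0 p σ))
  omega

theorem slc_F2_zero (p : ℕ) (hp : p.Prime) (h3 : p % 3 = 2) (h5 : 5 ≤ p) :
    slc p (fun r s t q => (p : ℤ) ∣ F2 r s t q) = 0 := by
  classical
  have : Fact p.Prime := ⟨hp⟩
  have h2 : (2 : ZMod p) ≠ 0 := by
    intro h
    have h' : ((2 : ℕ) : ZMod p) = 0 := by exact_mod_cast h
    rw [ZMod.natCast_eq_zero_iff] at h'
    have := (Nat.prime_dvd_prime_iff_eq hp Nat.prime_two).1 h'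
    omega
  rw [LB_transfer p _ (D2_Sf p) (D2_hS p), card_eq_zero, eq_empty_iff_forall_notMem]
  rintro ⟨r, s, t, q⟩ hx
  obtain ⟨_, hN⟩ := (LB_mem_set p _ _).1 hx
  unfold D2_Sf at hN
  simp only at hN
  obtain ⟨N, hNd⟩ : ∃ N, N = D2_N p r s t q := ⟨_, rfl⟩
  rw [← hNd] at hN
  obtain ⟨x, hx⟩ : ∃ x : ZMod p, x = (N / 2 - 1) / 2 := ⟨_, rfl⟩
  have hN2 : N = 4 * x + 2 := by
    rw [hx]
    field_simp
    ring
  have h16 : (2 : ZMod p) ^ 4 * (x ^ 2 + x + 1) = 0 := by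
    rw [hN2] at hN
    linear_combination hN
  have h20 : x ^ 2 + x + 1 = 0 := (mul_eq_zero.1 h16).resolve_left (pow_ne_zero 4 h2)
  have hx0 : x ≠ 0 := by
    rintro rfl
    have : (1 : ZMod p) = 0 := by linear_combination h20
    exact one_ne_zero this
  have hx3 : x ^ 3 = 1 := by linear_combination (x - 1) * h20
  have hf := ZMod.pow_card_sub_one_eq_one hx0
  have e : p - 1 = 3 * ((p - 1) / 3) + 1 := by omega
  rw [e, pow_add, pow_mul, hx3, one_pow, one_mul, pow_one] at hf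
  rw [hf] at h20
  have h33 : ((3 : ℕ) : ZMod p) = 0 := by
    push_cast
    linear_combination h20
  rw [ZMod.natCast_eq_zero_iff] at h33
  have := Nat.le_of_dvd (by norm_num) h33
  omega

private theorem D2_cases (p : ℕ) (hp : p.Prime) (h4 : p % 4 = 1) :
    5 ≤ p ∧ (p % 12 = 1 ∨ p % 12 = 5) := by
  have h2 := hp.two_le
  have h5 : 5 ≤ p := by omega
  refine ⟨h5, ?_⟩
  have h0 : p % 3 ≠ 0 := by
    intro h
    have h1 : 3 ∣ p := Nat.dvd_of_mod_eq_zero h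
    have := (Nat.prime_dvd_prime_iff_eq Nat.prime_three hp).1 h1
    omega
  omega

private theorem D2_F2 (p : ℕ) (hp : p.Prime) (h4 : p % 4 = 1) :
    (slc p (fun r s t q => (p : ℤ) ∣ F2 r s t q) : ℝ) =
      (if p % 12 = 1 then rho p else 0) * ((p : ℝ) * ((p : ℝ) - 1) * ((p : ℝ) + 1)) := by
  obtain ⟨h5, hc⟩ := D2_cases p hp h4
  have hP : (5 : ℝ) ≤ p := by exact_mod_cast h5
  by_cases h12 : p % 12 = 1
  · rw [if_pos h12, ← dn_F2 p hp h12]
    unfold dn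
    rw [LB_cast_top p hp, div_mul_cancel₀]
    have h1 : (0 : ℝ) < p := by linarith
    have h2 : (0 : ℝ) < (p : ℝ) - 1 := by linarith
    positivity
  · rw [if_neg h12, slc_F2_zero p hp (by omega) h5]
    simp

theorem dn2_lower (p : ℕ) (hp : p.Prime) (h4 : p % 4 = 1) (σ : ℤ) (hσ : σ = 1 ∨ σ = -1) :
    (if p % 12 = 1 then rho p else 0) + ((1 / 2) * ((1 : ℝ) / p) - ((1 : ℝ) / p - 1 / (p + 1))) ≤ dn p (B2 σ p) := by
  obtain ⟨h5, _⟩ := D2_cases p hp h4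
  have hP : (5 : ℝ) ≤ p := by exact_mod_cast h5
  have h1 : (0 : ℝ) < p := by linarith
  have h2 : (0 : ℝ) < (p : ℝ) - 1 := by linarith
  have hT : 0 < (p : ℝ) * ((p : ℝ) - 1) * ((p : ℝ) + 1) := by positivity
  have hF := D2_F2 p hp h4
  unfold dn
  rw [LB_cast_top p hp, le_div_iff₀ hT, add_mul, ← hF]
  have h6 := slc2_lower p hp h4 σ hσ
  have h7 : 2 * (slc p (fun r s t q => (p : ℤ) ∣ F2 r s t q) : ℝ) +
      ((p : ℝ) - 1) * ((p : ℝ) - 1) ≤ 2 * (slc p (B2 σ p) : ℝ) := by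
    have h8 : ((p - 1 : ℕ) : ℝ) = (p : ℝ) - 1 := by
      rw [Nat.cast_sub hp.one_le, Nat.cast_one]
    rw [← h8]
    exact_mod_cast h6
  have h9 : ((1 / 2) * ((1 : ℝ) / p) - ((1 : ℝ) / p - 1 / (p + 1))) *
      ((p : ℝ) * ((p : ℝ) - 1) * ((p : ℝ) + 1)) = ((p : ℝ) - 1) * ((p : ℝ) - 1) / 2 := by
    field_simp
    ring
  rw [h9]
  linarith

theorem dn2_bd (p : ℕ) (hp : p.Prime) (h4 : p % 4 = 1) (h13 : 13 ≤ p) (σ : ℤ) (hσ : σ = 1 ∨ σ = -1) :
    0 < dn p (B2 σ p) ∧ dn p (B2 σ p) < 1 ∧ dn p (B2 σ p) * p ≤ 6 := by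
  have h5 : 5 ≤ p := by omega
  have hP : (5 : ℝ) ≤ p := by exact_mod_cast h5
  have h1 : (0 : ℝ) < p := by linarith
  have h2 : (0 : ℝ) < (p : ℝ) - 1 := by linarith
  have hT : 0 < (p : ℝ) * ((p : ℝ) - 1) * ((p : ℝ) + 1) := by positivity
  have hrho := rho_bd p h5
  have hl := dn2_lower p hp h4 σ hσ
  have hx : 0 < (1 / 2) * ((1 : ℝ) / p) - ((1 : ℝ) / p - 1 / (p + 1)) := by
    have e : (1 / 2) * ((1 : ℝ) / p) - ((1 : ℝ) / p - 1 / (p + 1)) =
        ((p : ℝ) - 1) / (2 * p * (p + 1)) := by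
      field_simp
      ring
    rw [e]
    positivity
  have hF := D2_F2 p hp h4
  have hF2 : (slc p (fun r s t q => (p : ℤ) ∣ F2 r s t q) : ℝ) ≤
      2 * ((p : ℝ) - 1) * (2 * (p : ℝ) - 1) := by
    rw [hF]
    by_cases h12 : p % 12 = 1
    · rw [if_pos h12]
      apply le_of_eq
      unfold rho
      field_simp
    · rw [if_neg h12, zero_mul]
      have : (0 : ℝ) < 2 * (p : ℝ) - 1 := by linarith
      positivity
  have hU : (slc p (B2 σ p) : ℝ) ≤ 2 * ((p : ℝ) - 1) * (2 * (p : ℝ) - 1) + p * p := by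
    have h6 := slc2_upper p hp h4 σ hσ
    have h7 : (slc p (B2 σ p) : ℝ) ≤
        (slc p (fun r s t q => (p : ℤ) ∣ F2 r s t q) : ℝ) + p * p := by exact_mod_cast h6
    linarith
  refine ⟨?_, ?_, ?_⟩
  · refine lt_of_lt_of_le ?_ hl
    by_cases h12 : p % 12 = 1
    · rw [if_pos h12]
      linarith [hrho.1]
    · rw [if_neg h12]
      linarith
  · unfold dn
    rw [LB_cast_top p hp, div_lt_one hT]
    refine lt_of_le_of_lt hU ?_
    nlinarith [mul_nonneg (sub_nonneg.2 hP) (mul_pos h1 h1).le]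
  · unfold dn
    rw [LB_cast_top p hp, div_mul_eq_mul_div, div_le_iff₀ hT]
    have h8 : (slc p (B2 σ p) : ℝ) * p ≤
        (2 * ((p : ℝ) - 1) * (2 * (p : ℝ) - 1) + p * p) * p :=
      mul_le_mul_of_nonneg_right hU h1.le
    refine h8.trans ?_
    nlinarith [mul_nonneg (sub_nonneg.2 hP) h1.le, mul_pos h1 h1,
      mul_nonneg (mul_nonneg (sub_nonneg.2 hP) h1.le) h1.le]

end Pool.Agent.H49.PPR
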