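import Pool.Agent.H37.PPE.CR
import Pool.Agent.H37.PPE.SE
import Pool.Agent.H37.PPE.LB
import Pool.Agent.H37.PPE.RD
import Pool.Agent.H37.PPE.DS

/-!
PROJECT PPR (MP_e38f6a_co): all but `O (x / (log x)^(5/4))` of the orders `n ≤ x` of planar cyclic difference sets are primes.
Definitions: the excluded classes of matrices mod `p`.
-/

set_option autoImplicit false

namespace Pool.Agent.H49.PPR

open Finset Pool.Agent.H37.PPC Pool.Agent.H37.PPD Pool.Agent.H37.PPE

/-- excluded classes mod `p` for `n²+n+1 = u w`: `p` divides `u w`, or `p ≡ 1` mod `4` divides `n` and `u` is not a square mod `p` -/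
def B1 (p : ℕ) (r s t q : ℤ) : Prop :=
  (p : ℤ) ∣ F1 r s t q ∨
    (p % 4 = 1 ∧ (p : ℤ) ∣ r * t + s * t + s * q ∧ ¬ IsSquare ((r ^ 2 + r * s + s ^ 2 : ℤ) : ZMod p))

/-- excluded classes mod `p` for `n²+n+1 = A²+B²` -/
def B2 (σ : ℤ) (p : ℕ) (r s t q : ℤ) : Prop := ¬ G2 σ p r s t q

end Pool.Agent.H49.PPR
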