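import Pool.Agent.H49.PPR.Defs

/-!
PPR SV: the sieve on the box of matrices with arbitrary periodic excluded classes.

F a := ∏ of the p ∈ P with B p a: for p ∈ P, p ∣ F a ⟺ B p a.  SEL2 κ with ρ p = dn p (B p), X = #box, E = Ce L (z^s)^6 R^(2-1/40) (eqd with Q = T);
 #box ≤ 224 L R².  Error for z^K ≤ R, K = 40 (7 s + 3): ≤ Ce L R² z^(-3).
-/

set_option autoImplicit false

namespace Pool.Agent.H49.PPR

open Finset Pool.Agent.H37.PPC Pool.Agent.H37.PPD Pool.Agent.H37.PPE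

private theorem SV_inj {r s t t' : ℤ} (hr : 0 < r) (h1 : r ∣ 1 + s * t) (h2 : r ∣ 1 + s * t')
    (h3 : t / r = t' / r) : t = t' := by
  have h4 : r ∣ s * (t - t') := by
    have h5 : s * (t - t') = (1 + s * t) - (1 + s * t') := by ring
    rw [h5]
    exact dvd_sub h1 h2
  have hcop : IsCoprime r s := by
    obtain ⟨k, hk⟩ := h1
    exact ⟨k, -t, by linarith [hk, mul_comm r k, mul_comm s t]⟩
  have h6 : r ∣ t - t' := hcop.dvd_of_dvd_mul_left h4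
  have h7 : t % r = t' % r :=
    Int.emod_eq_emod_iff_emod_sub_eq_zero.2 (Int.emod_eq_zero_of_dvd h6)
  rw [← Int.mul_ediv_add_emod t r, ← Int.mul_ediv_add_emod t' r, h3, h7]

theorem box_card_le (R L : ℕ) : ((box R L).card : ℝ) ≤ 224 * (L * (R : ℝ) ^ 2) := by
  have h : (box R L).card ≤ (Ico (R : ℤ) (8 * R) ×ˢ (Ico (-(8 * R : ℤ)) (8 * R) ×ˢ
      Ico (-(L : ℤ)) L)).card := by
    apply Finset.card_le_card_of_injOn (fun x => (x.1, x.2.1, x.2.2 / x.1))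
    · rintro ⟨r, s, t⟩ hx
      simp only [Pool.Agent.H37.PPE.box, Finset.coe_filter, Set.mem_ofPred_eq, mem_product, mem_Ico] at hx
      obtain ⟨⟨⟨h1, h2⟩, ⟨h3, h4⟩, h5, h6⟩, h7, h8, h9, h10, h11⟩ := hx
      have hr : 0 < r := by omega
      simp only [Finset.coe_product, Set.mem_prod, Finset.coe_Ico, Set.mem_Ico]
      refine ⟨⟨h1, h2⟩, ⟨h3, h4⟩, ?_, ?_⟩
      · rw [Int.le_ediv_iff_mul_le hr]
        linarith
      · exact Int.ediv_lt_of_lt_mul hr h10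
    · rintro ⟨r, s, t⟩ hx ⟨r', s', t'⟩ hx' heq
      simp only [Pool.Agent.H37.PPE.box, Finset.coe_filter, Set.mem_ofPred_eq, mem_product, mem_Ico] at hx hx'
      obtain ⟨⟨⟨h1, h2⟩, ⟨h3, h4⟩, h5, h6⟩, h7, h8, h9, h10, h11⟩ := hx
      obtain ⟨⟨⟨h1', h2'⟩, ⟨h3', h4'⟩, h5', h6'⟩, h7', h8', h9', h10', h11'⟩ := hx'
      simp only [Prod.mk.injEq] at heq
      obtain ⟨e1, e2, e3⟩ := heq
      subst e1 e2
      rw [SV_inj (by omega) h11 h11' e3]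
  have h2 : (Ico (R : ℤ) (8 * R) ×ˢ (Ico (-(8 * R : ℤ)) (8 * R) ×ˢ Ico (-(L : ℤ)) L)).card =
      (7 * R) * ((16 * R) * (2 * L)) := by
    rw [card_product, card_product, Int.card_Ico, Int.card_Ico, Int.card_Ico]
    have e1 : (8 * (R : ℤ) - R).toNat = 7 * R := by omega
    have e2 : (8 * (R : ℤ) - -(8 * R)).toNat = 16 * R := by omega
    have e3 : ((L : ℤ) - -L).toNat = 2 * L := by omega
    rw [e1, e2, e3]
  rw [h2] at h
  have h3 : ((box R L).card : ℝ) ≤ (((7 * R) * ((16 * R) * (2 * L)) : ℕ) : ℝ) := by exact_mod_cast h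
  refine h3.trans (le_of_eq ?_)
  push_cast
  ring

private theorem SV_rp (z R s : ℕ) (hz : 2 ≤ z) (hR : z ^ (40 * (7 * s + 3)) ≤ R) :
    (z : ℝ) ^ s * (((z : ℝ) ^ s) ^ 6 * (R : ℝ) ^ (2 - 1 / 40 : ℝ)) ≤ (R : ℝ) ^ 2 * (1 / (z : ℝ) ^ 3) := by
  have hz' : (2 : ℝ) ≤ z := by exact_mod_cast hz
  have hz0 : (0 : ℝ) < z := by linarith
  have hzp : 0 < z ^ (40 * (7 * s + 3)) := by positivity
  have hR0 : (0 : ℝ) < R := by
    have : 0 < R := lt_of_lt_of_le hzp hR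
    exact_mod_cast this
  have h0 : (R : ℝ) ^ (2 - 1 / 40 : ℝ) ≤ (R : ℝ) ^ 2 / (z : ℝ) ^ (7 * s + 3) := by
    rw [Real.rpow_sub hR0]
    have e : (R : ℝ) ^ (2 : ℝ) = (R : ℝ) ^ 2 := by
      exact_mod_cast Real.rpow_natCast (R : ℝ) 2
    rw [e]
    apply div_le_div_of_nonneg_left (by positivity) (by positivity)
    have h1 : ((z : ℝ) ^ (7 * s + 3)) ^ 40 ≤ R := by
      rw [← pow_mul, mul_comm]
      exact_mod_cast hR
    have h2 : (((z : ℝ) ^ (7 * s + 3)) ^ 40) ^ ((1 : ℝ) / 40) ≤ (R : ℝ) ^ ((1 : ℝ) / 40) :=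
      Real.rpow_le_rpow (by positivity) h1 (by norm_num)
    have h3 : (((z : ℝ) ^ (7 * s + 3)) ^ 40) ^ ((1 : ℝ) / 40) = (z : ℝ) ^ (7 * s + 3) := by
      have := Real.pow_rpow_inv_natCast (x := (z : ℝ) ^ (7 * s + 3)) (n := 40) (by positivity)
        (by norm_num)
      rw [one_div]
      exact_mod_cast this
    rwa [h3] at h2
  calc (z : ℝ) ^ s * (((z : ℝ) ^ s) ^ 6 * (R : ℝ) ^ (2 - 1 / 40 : ℝ))
      ≤ (z : ℝ) ^ s * (((z : ℝ) ^ s) ^ 6 * ((R : ℝ) ^ 2 / (z : ℝ) ^ (7 * s + 3))) := by gcongr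
    _ = (R : ℝ) ^ 2 * (1 / (z : ℝ) ^ 3) := by
        have e : (z : ℝ) ^ (7 * s + 3) = (z : ℝ) ^ s * ((z : ℝ) ^ s) ^ 6 * (z : ℝ) ^ 3 := by ring
        rw [e]
        have hne : (z : ℝ) ≠ 0 := hz0.ne'
        have hne2 : (z : ℝ) ^ s ≠ 0 := pow_ne_zero _ hne
        field_simp

private theorem SV_dvd (Q : Finset ℕ) (hQ : ∀ q ∈ Q, q.Prime) (p : ℕ) (hp : p.Prime) :
    (p : ℤ) ∣ ((∏ q ∈ Q, q : ℕ) : ℤ) ↔ p ∈ Q := by
  rw [Int.natCast_dvd_natCast]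
  constructor
  · intro h
    obtain ⟨q, hq, hpq⟩ := (hp.prime.dvd_finsetProd_iff _).1 h
    rw [(Nat.prime_dvd_prime_iff_eq hp (hQ q hq)).1 hpq]
    exact hq
  · intro h
    exact dvd_prod_of_mem _ h

open Classical in
theorem SV (κ : ℕ) : ∃ K : ℕ, ∃ C : ℝ, 0 < C ∧ ∀ (B : ℕ → ℤ → ℤ → ℤ → ℤ → Prop) (z : ℕ) (P : Finset ℕ), 2 ≤ z →
    P ⊆ pr 2 (z + 1) → (∀ p ∈ P, Per p (B p)) →
    (∀ p ∈ P, 0 < dn p (B p) ∧ dn p (B p) < 1 ∧ dn p (B p) * p ≤ κ) →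
    ∀ R L : ℕ, 1 ≤ L → z ^ K ≤ R →
    (((box R L).filter (fun a => ∀ p ∈ P, ¬ B p a.1 a.2.1 a.2.2 (qq a))).card : ℝ) ≤
      C * (L * (R : ℝ) ^ 2) * (Real.exp (-∑ p ∈ P, dn p (B p)) + 1 / (z : ℝ) ^ 3) := by
  obtain ⟨s, hs0, hs⟩ := SEL2 κ
  obtain ⟨Ce, hCe, heqd⟩ := eqd
  refine ⟨40 * (7 * s + 3), 448 + Ce, by positivity, ?_⟩
  intro B z P hz hPz hper hρ R L hL hzR
  have hz' : (2 : ℝ) ≤ z := by exact_mod_cast hz
  have hR : 1 ≤ R := (Nat.one_le_pow _ _ (by omega)).trans hzR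
  have hPp : ∀ p ∈ P, p.Prime := fun p hp => (mem_pr.1 (hPz hp)).2
  obtain ⟨F, hF⟩ : ∃ F : ℤ × ℤ × ℤ → ℤ, ∀ a, F a =
      ((∏ p ∈ P.filter (fun p => B p a.1 a.2.1 a.2.2 (qq a)), p : ℕ) : ℤ) := ⟨_, fun _ => rfl⟩
  have hdvd : ∀ a, ∀ p ∈ P, ((p : ℤ) ∣ F a ↔ B p a.1 a.2.1 a.2.2 (qq a)) := by
    intro a p hp
    rw [hF, SV_dvd _ (fun q hq => hPp q (mem_filter.1 hq).1) p (hPp p hp), mem_filter]
    exact ⟨fun h => h.2, fun h => ⟨hp, h⟩⟩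
  have hR0 : (0 : ℝ) ≤ (R : ℝ) ^ (2 - 1 / 40 : ℝ) := Real.rpow_nonneg (Nat.cast_nonneg _) _
  set E : ℝ := Ce * L * ((z : ℝ) ^ s) ^ 6 * (R : ℝ) ^ (2 - 1 / 40 : ℝ) with hE
  have hE0 : 0 ≤ E := by positivity
  have hmain := hs (box R L) F z P (fun p => dn p (B p)) (box R L).card E hz hPz hρ
    (Nat.cast_nonneg _) hE0 (by
      intro T hT hTz
      have h1 := heqd R L hR hL T (fun p hp => hPp p (hT hp)) B (fun p hp => hper p (hT hp))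
      have h2 : ((box R L).filter (fun a => ∀ p ∈ T, (p : ℤ) ∣ F a)).card =
          ((box R L).filter (fun x => ∀ p ∈ T, B p x.1 x.2.1 x.2.2 (qq x))).card := by
        congr 1
        ext a
        simp only [mem_filter]
        refine and_congr_right fun _ => ?_
        exact forall₂_congr fun p hp => hdvd a p (hT hp)
      have h3 : (((∏ p ∈ T, p : ℕ) : ℝ)) ≤ (z : ℝ) ^ s := by exact_mod_cast hTz
      have h4 : (((∏ p ∈ T, p : ℕ) : ℝ)) ^ 6 ≤ ((z : ℝ) ^ s) ^ 6 :=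
        pow_le_pow_left₀ (Nat.cast_nonneg _) h3 6
      have h5 : Ce * L * (((∏ p ∈ T, p : ℕ) : ℝ)) ^ 6 * (R : ℝ) ^ (2 - 1 / 40 : ℝ) ≤ E :=
        mul_le_mul_of_nonneg_right (mul_le_mul_of_nonneg_left h4 (by positivity)) hR0
      have h6 := h1.trans h5
      rw [← h2] at h6
      exact h6)
  have hcard : ((box R L).filter (fun a => ∀ p ∈ P, ¬ B p a.1 a.2.1 a.2.2 (qq a))).card =
      ((box R L).filter (fun a => ∀ p ∈ P, ¬ (p : ℤ) ∣ F a)).card := by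
    congr 1
    ext a
    simp only [mem_filter]
    refine and_congr_right fun _ => ?_
    exact forall₂_congr fun p hp => not_congr (hdvd a p hp).symm
  rw [hcard]
  refine hmain.trans ?_
  have hb := box_card_le R L
  have hrp := SV_rp z R s hz hzR
  have hx0 : 0 < Real.exp (-∑ p ∈ P, dn p (B p)) := Real.exp_pos _
  have e1 : 2 * ((box R L).card : ℝ) * Real.exp (-∑ p ∈ P, dn p (B p)) ≤
      448 * (L * (R : ℝ) ^ 2) * Real.exp (-∑ p ∈ P, dn p (B p)) := by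
    apply mul_le_mul_of_nonneg_right _ hx0.le
    linarith only [hb]
  have e2 : (z : ℝ) ^ s * E ≤ Ce * (L * (R : ℝ) ^ 2) * (1 / (z : ℝ) ^ 3) := by
    rw [hE]
    calc (z : ℝ) ^ s * (Ce * L * ((z : ℝ) ^ s) ^ 6 * (R : ℝ) ^ (2 - 1 / 40 : ℝ))
        = Ce * L * ((z : ℝ) ^ s * (((z : ℝ) ^ s) ^ 6 * (R : ℝ) ^ (2 - 1 / 40 : ℝ))) := by ring
      _ ≤ Ce * L * ((R : ℝ) ^ 2 * (1 / (z : ℝ) ^ 3)) :=
          mul_le_mul_of_nonneg_left hrp (by positivity)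
      _ = _ := by ring
  have hLR : 0 ≤ (L : ℝ) * (R : ℝ) ^ 2 := by positivity
  have hz3 : 0 ≤ 1 / (z : ℝ) ^ 3 := by positivity
  calc 2 * ((box R L).card : ℝ) * Real.exp (-∑ p ∈ P, dn p (B p)) + (z : ℝ) ^ s * E
      ≤ 448 * (L * (R : ℝ) ^ 2) * Real.exp (-∑ p ∈ P, dn p (B p)) +
        Ce * (L * (R : ℝ) ^ 2) * (1 / (z : ℝ) ^ 3) := add_le_add e1 e2
    _ ≤ (448 + Ce) * (L * (R : ℝ) ^ 2) * (Real.exp (-∑ p ∈ P, dn p (B p)) + 1 / (z : ℝ) ^ 3) := by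
        have k1 : 0 ≤ Ce * (L * (R : ℝ) ^ 2) * Real.exp (-∑ p ∈ P, dn p (B p)) := by positivity
        have k2 : 0 ≤ 448 * (L * (R : ℝ) ^ 2) * (1 / (z : ℝ) ^ 3) := by positivity
        have e3 : (448 + Ce) * (L * (R : ℝ) ^ 2) * (Real.exp (-∑ p ∈ P, dn p (B p)) + 1 / (z : ℝ) ^ 3) =
          448 * (L * (R : ℝ) ^ 2) * Real.exp (-∑ p ∈ P, dn p (B p)) + Ce * (L * (R : ℝ) ^ 2) * (1 / (z : ℝ) ^ 3) +
          (Ce * (L * (R : ℝ) ^ 2) * Real.exp (-∑ p ∈ P, dn p (B p)) +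
            448 * (L * (R : ℝ) ^ 2) * (1 / (z : ℝ) ^ 3)) := by ring
        rw [e3]
        linarith only [k1, k2]

end Pool.Agent.H49.PPR
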