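import Pool.Agent.H49.PPR.SM
import Pool.Agent.H49.PPR.SV

/-!
PPR IB: integers n ≤ x with n²+n+1 = A²+B² (B even, A > 0, U < 2n+1-2A ≤ 2U), no prime factor p with 13 ≤ p ≤ z, and A + B ι a square mod p
for every prime p ≡ 1 mod 4, 13 ≤ p ≤ z, p ∣ n.

Copy of Pool/Agent/H37/PPE/IB.lean (IB_mem, IB_F2, IB_nd, IB_G2, IB_LR, I2U; private there) with the sieve SV 6, B = B2 σ, P = (pr 13 (z+1)).filter (p % 4 = 1),
dn2_bd, dn2_sum instead of IB_sieve (no Q0, no product).  IB_G2 gives G2 σ p for all p ∈ P, that is ¬ B2 σ p.  T0 = 2 K + 4 (z^K ≤ sqrt (U/2), U ≥ 128: T0 ≥ 7).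
 1/z³ ≤ exp(-(5/4) ll z).
-/

set_option autoImplicit false

namespace Pool.Agent.H49.PPR

open Finset Pool.Agent.H37.PPC Pool.Agent.H37.PPD Pool.Agent.H37.PPE

private theorem IB_mem (x U : ℕ) (hU : 128 ≤ U) (n : ℕ) (hn : n ≤ x) (A B : ℤ)
    (hAB : A ^ 2 + B ^ 2 = (n : ℤ) ^ 2 + n + 1) (h1 : (U : ℤ) < 2 * n + 1 - 2 * A)
    (h2 : 2 * n + 1 - 2 * A ≤ 2 * (U : ℤ)) :
    ∃ σ : ℤ, (σ = 1 ∨ σ = -1) ∧ ∃ y ∈ box (Nat.sqrt (U / 2)) (3 * Nat.sqrt (x / U) + 8),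
      σ * (y.1 ^ 2 - 3 * y.2.1 ^ 2 + (y.2.2 ^ 2 - 3 * (qq y) ^ 2)) = 4 * n + 2 ∧
      σ * (y.2.2 ^ 2 - 3 * (qq y) ^ 2 - (y.1 ^ 2 - 3 * y.2.1 ^ 2)) = 4 * A ∧
      σ * (y.1 * y.2.2 - 3 * y.2.1 * qq y) = 2 * B := by
  set R := Nat.sqrt (U / 2) with hR
  set m := Nat.sqrt (x / U) with hm
  obtain ⟨r, s, t, q, σ, hσ, hdet, hu, hb, hw, hr, hs1, hs2, hr1, hr2, ht⟩ :=
    RD2 (2 * n + 1 - 2 * A) (2 * n + 1 + 2 * A) (2 * B) (by linarith [Int.natCast_nonneg U])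
      (by linarith)
  have hU0 : (128 : ℤ) ≤ U := by exact_mod_cast hU
  -- R bounds
  have hRl : R * R ≤ U / 2 := Nat.sqrt_le (U / 2)
  have hRu : U / 2 < (R + 1) * (R + 1) := Nat.lt_succ_sqrt (U / 2)
  have hR8 : 8 ≤ R := by
    rw [hR]
    apply Nat.le_sqrt.2
    omega
  have hRl' : 2 * ((R : ℤ) * R) ≤ U := by
    have : 2 * (R * R) ≤ U := by omega
    exact_mod_cast this
  have hRu' : (U : ℤ) < 2 * ((R + 1) * (R + 1)) := by
    have : U < 2 * ((R + 1) * (R + 1)) := by omega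
    exact_mod_cast this
  have hR8' : (8 : ℤ) ≤ R := by exact_mod_cast hR8
  have hrR : (R : ℤ) ≤ r := by
    by_contra hcon
    push Not at hcon
    have h5 : r * r ≤ R * R := mul_self_le_mul_self hr.le hcon.le
    have h6 : r ^ 2 = r * r := sq r
    linarith
  have hrR2 : r < 8 * R := by
    by_contra hcon
    push Not at hcon
    have h5 : (8 * (R : ℤ)) * (8 * R) ≤ r * r := mul_self_le_mul_self (by positivity) hcon
    have h6 : r ^ 2 = r * r := sq r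
    have h7 : 100 * ((R : ℤ) + 1) * (R + 1) ≤ 128 * (R * R) := by nlinarith
    linarith
  -- m bound
  have hml : x / U < (m + 1) * (m + 1) := Nat.lt_succ_sqrt (x / U)
  have hml' : x < U * ((m + 1) * (m + 1)) := by
    have := (Nat.div_lt_iff_lt_mul (by omega : 0 < U)).1 hml
    linarith [Nat.mul_comm U ((m + 1) * (m + 1))]
  have hml2 : (x : ℤ) + 1 ≤ U * ((m + 1) * (m + 1)) := by exact_mod_cast hml'
  have hnx : (n : ℤ) ≤ x := by exact_mod_cast hn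
  have hm0 : (0 : ℤ) ≤ m := Int.natCast_nonneg m
  set u : ℤ := 2 * n + 1 - 2 * A with hudef
  have hu0 : (128 : ℤ) < u := by linarith
  have hbsq : (2 * B) ^ 2 < (2 * u * (m + 1)) ^ 2 := by
    have e1 : (2 * B) ^ 2 = u * (4 * n + 2 - u) + 3 := by
      rw [hudef]
      linarith
    rw [e1]
    have e2 : u * (4 * n + 2 - u) + 3 < u * (4 * n + 2) := by
      have : 3 < u * u := by nlinarith
      linarith
    have e3 : u * (4 * (n : ℤ) + 2) ≤ u * (4 * (u * ((m + 1) * (m + 1)))) := by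
      apply mul_le_mul_of_nonneg_left _ (by linarith)
      have : (U : ℤ) * ((m + 1) * (m + 1)) ≤ u * ((m + 1) * (m + 1)) := by
        apply mul_le_mul_of_nonneg_right h1.le
        positivity
      linarith
    calc u * (4 * n + 2 - u) + 3 < u * (4 * n + 2) := e2
      _ ≤ u * (4 * (u * ((m + 1) * (m + 1)))) := e3
      _ = (2 * u * (m + 1)) ^ 2 := by ring
  have hbabs : |2 * B| < 2 * u * (m + 1) := by
    have h0 : 0 ≤ 2 * u * (m + 1) := by positivity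
    exact abs_lt_of_sq_lt_sq hbsq h0
  have hbL : |2 * B| + 3 < (3 * m + 8) * u := by
    have : 0 ≤ (m : ℤ) * u := mul_nonneg hm0 (by linarith)
    linarith
  have htL : |t| < (3 * m + 8) * r := by
    have h3 : |t| * u < ((3 * m + 8) * r) * u := by
      calc |t| * u ≤ (|2 * B| + 3) * r := ht
        _ < ((3 * m + 8) * u) * r := by
          apply mul_lt_mul_of_pos_right hbL hr
        _ = ((3 * m + 8) * r) * u := by ring
    exact lt_of_mul_lt_mul_right h3 (by linarith)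
  have htL' := abs_lt.1 htL
  have hqq : qq (r, s, t) = q := by
    unfold qq
    simp only
    have : 1 + s * t = r * q := by linarith
    rw [this]
    exact Int.mul_ediv_cancel_left _ hr.ne'
  refine ⟨σ, hσ, (r, s, t), ?_, ?_, ?_, ?_⟩
  · simp only [Pool.Agent.H37.PPE.box, mem_filter, mem_product, mem_Ico]
    have hLr : ((3 * m + 8 : ℕ) : ℤ) * r ≤ 8 * R * ((3 * m + 8 : ℕ) : ℤ) := by
      rw [mul_comm]
      apply mul_le_mul_of_nonneg_right hrR2.le (Int.natCast_nonneg _)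
    push_cast at hLr ⊢
    refine ⟨⟨⟨hrR, hrR2⟩, ⟨by linarith, by linarith⟩, by linarith [htL'.1], by linarith [htL'.2]⟩,
      hs1, hs2, by linarith [htL'.1], htL'.2, ⟨q, by linarith⟩⟩
  · simp only [hqq]
    linarith
  · simp only [hqq]
    have := hudef
    linarith
  · simp only [hqq]
    linarith

private theorem IB_F2 (σ : ℤ) (hσ : σ = 1 ∨ σ = -1) (r s t q : ℤ) (n : ℕ)
    (h1 : σ * (r ^ 2 - 3 * s ^ 2 + (t ^ 2 - 3 * q ^ 2)) = 4 * n + 2) :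
    F2 r s t q = 16 * ((n ^ 2 + n + 1 : ℕ) : ℤ) := by
  unfold F2
  have h2 : (r ^ 2 - 3 * s ^ 2 + (t ^ 2 - 3 * q ^ 2)) ^ 2 = (4 * (n : ℤ) + 2) ^ 2 := by
    rw [← h1]
    rcases hσ with rfl | rfl <;> ring
  rw [h2]
  push_cast
  ring

private theorem IB_nd (p : ℕ) (hp : p.Prime) (h13 : 13 ≤ p) (σ : ℤ) (hσ : σ = 1 ∨ σ = -1)
    (r s t q : ℤ) (n : ℕ)
    (h1 : σ * (r ^ 2 - 3 * s ^ 2 + (t ^ 2 - 3 * q ^ 2)) = 4 * n + 2)
    (hnd : ¬ p ∣ n ^ 2 + n + 1) : ¬ (p : ℤ) ∣ F2 r s t q := by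
  rw [IB_F2 σ hσ r s t q n h1]
  intro h
  have h2 : p ∣ 16 * (n ^ 2 + n + 1) := by exact_mod_cast h
  rcases (Nat.Prime.dvd_mul hp).1 h2 with h3 | h3
  · have : p ∣ 2 ^ 4 := by simpa using h3
    have := hp.dvd_of_dvd_pow this
    have := Nat.le_of_dvd (by norm_num) this
    omega
  · exact hnd h3

private theorem IB_G2 (p : ℕ) (hp : p.Prime) (h13 : 13 ≤ p) (σ : ℤ) (hσ : σ = 1 ∨ σ = -1)
    (r s t q : ℤ) (n : ℕ) (A B : ℤ)
    (h1 : σ * (r ^ 2 - 3 * s ^ 2 + (t ^ 2 - 3 * q ^ 2)) = 4 * n + 2)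
    (h2 : σ * (t ^ 2 - 3 * q ^ 2 - (r ^ 2 - 3 * s ^ 2)) = 4 * A)
    (h3 : σ * (r * t - 3 * s * q) = 2 * B)
    (hnd : ¬ p ∣ n ^ 2 + n + 1)
    (hsq : p ∣ n → ∀ ι : ZMod p, ι ^ 2 = -1 → IsSquare ((A : ZMod p) + (B : ZMod p) * ι)) :
    G2 σ p r s t q := by
  refine ⟨IB_nd p hp h13 σ hσ r s t q n h1 hnd, ?_⟩
  rintro ⟨hd, ι, hι, hns⟩
  have hpn : p ∣ n := by
    have e : (r ^ 2 - 3 * s ^ 2 + (t ^ 2 - 3 * q ^ 2)) - 2 * σ = σ * (4 * n) := by
      rcases hσ with rfl | rfl <;> linarith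
    rw [e] at hd
    have hd2 : (p : ℤ) ∣ 4 * n := by
      rcases hσ with rfl | rfl
      · simpa using hd
      · have : (-1 : ℤ) * (4 * n) = -(4 * n) := by ring
        rw [this] at hd
        exact (dvd_neg.1 hd)
    have hd3 : p ∣ 4 * n := by exact_mod_cast hd2
    rcases (Nat.Prime.dvd_mul hp).1 hd3 with h4 | h4
    · have := Nat.le_of_dvd (by norm_num) h4
      omega
    · exact h4
  apply hns
  have hAB := hsq hpn ι hι
  have e1 : (t ^ 2 - 3 * q ^ 2 - (r ^ 2 - 3 * s ^ 2)) = σ * (4 * A) := by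
    rcases hσ with rfl | rfl <;> linarith
  have e2 : r * t - 3 * s * q = σ * (2 * B) := by
    rcases hσ with rfl | rfl <;> linarith
  rw [e1, e2]
  obtain ⟨y, hy⟩ := hAB
  rcases hσ with rfl | rfl
  · refine ⟨2 * y, ?_⟩
    push_cast
    have : (2 * y) * (2 * y) = 4 * ((A : ZMod p) + (B : ZMod p) * ι) := by
      rw [hy]; ring
    rw [this]
    ring
  · refine ⟨2 * ι * y, ?_⟩
    push_cast
    have : (2 * ι * y) * (2 * ι * y) = 4 * ι ^ 2 * ((A : ZMod p) + (B : ZMod p) * ι) := by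
      rw [hy]; ring
    rw [this, hι]
    ring


private theorem IB_LR (x U : ℕ) (hU0 : 1 ≤ U) (hx : 1 ≤ x) (hUx : U ≤ 2 * x + 1) :
    ((3 * Nat.sqrt (x / U) + 8 : ℕ) : ℝ) * ((Nat.sqrt (U / 2) : ℕ) : ℝ) ^ 2
      ≤ 11 * Real.sqrt (x * U) := by
  set m := Nat.sqrt (x / U) with hmdef
  set R := Nat.sqrt (U / 2) with hRdef
  have hm : m * m * U ≤ x := by
    have h1 : m * m ≤ x / U := Nat.sqrt_le _
    exact (Nat.le_div_iff_mul_le hU0).1 h1
  have hR : 2 * (R * R) ≤ U := by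
    have h1 : R * R ≤ U / 2 := Nat.sqrt_le _
    omega
  have hm' : (m : ℝ) * m * U ≤ x := by exact_mod_cast hm
  have hR' : 2 * ((R : ℝ) * R) ≤ U := by exact_mod_cast hR
  have hU3 : (U : ℝ) ≤ 3 * x := by
    have : U ≤ 3 * x := by omega
    exact_mod_cast this
  have hU0' : (1 : ℝ) ≤ U := by exact_mod_cast hU0
  have hL : ((3 * (m : ℝ) + 8) ^ 2) * U ≤ 402 * x := by
    have h1 : (3 * (m : ℝ) + 8) ^ 2 ≤ 18 * (m * m) + 128 := by
      nlinarith [sq_nonneg (3 * (m : ℝ) - 8)]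
    calc ((3 * (m : ℝ) + 8) ^ 2) * U ≤ (18 * (m * m) + 128) * U :=
          mul_le_mul_of_nonneg_right h1 (by linarith)
      _ = 18 * (m * m * U) + 128 * U := by ring
      _ ≤ 402 * x := by linarith
  have hsq : (((3 * m + 8 : ℕ) : ℝ) * (R : ℝ) ^ 2) ^ 2 ≤ (11 * Real.sqrt (x * U)) ^ 2 := by
    have e : (11 * Real.sqrt (x * U)) ^ 2 = 121 * ((x : ℝ) * U) := by
      rw [mul_pow, Real.sq_sqrt (by positivity)]
      norm_num
    rw [e]
    push_cast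
    have h2 : (2 * ((R : ℝ) * R)) ^ 2 ≤ (U : ℝ) ^ 2 := pow_le_pow_left₀ (by positivity) hR' 2
    have h3 : 4 * (((3 * (m : ℝ) + 8) * (R : ℝ) ^ 2) ^ 2) ≤ 402 * (x * U) := by
      calc 4 * (((3 * (m : ℝ) + 8) * (R : ℝ) ^ 2) ^ 2)
          = (3 * (m : ℝ) + 8) ^ 2 * (2 * ((R : ℝ) * R)) ^ 2 := by ring
        _ ≤ (3 * (m : ℝ) + 8) ^ 2 * (U : ℝ) ^ 2 := mul_le_mul_of_nonneg_left h2 (by positivity)
        _ = ((3 * (m : ℝ) + 8) ^ 2 * U) * U := by ring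
        _ ≤ (402 * x) * U := mul_le_mul_of_nonneg_right hL (by linarith)
        _ = 402 * (x * U) := by ring
    have h4 : (0 : ℝ) ≤ x * U := by positivity
    linarith
  exact (pow_le_pow_iff_left₀ (by positivity) (by positivity) (by norm_num)).1 hsq

private theorem IB_ll (z : ℕ) (hz : 2 ≤ z) : 1 / (z : ℝ) ^ 3 ≤ Real.exp (-((5 / 4) * ll z)) := by
  have hz' : (2 : ℝ) ≤ z := by exact_mod_cast hz
  have hz0 : (0 : ℝ) < z := by linarith
  have hl : 0 < Real.log z := Real.log_pos (by linarith)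
  have h1 : ll z ≤ Real.log z := by
    unfold ll
    have h2 := Real.log_le_sub_one_of_pos hl
    linarith
  have h3 : 0 ≤ Real.log z := hl.le
  have e : 1 / (z : ℝ) ^ 3 = Real.exp (-(3 * Real.log z)) := by
    rw [Real.exp_neg, one_div]
    congr 1
    rw [show (3 : ℝ) * Real.log z = ((3 : ℕ) : ℝ) * Real.log z by norm_num, ← Real.log_pow,
      Real.exp_log (by positivity)]
  rw [e]
  apply Real.exp_le_exp.2
  nlinarith

theorem I2U' : ∃ T0 : ℕ, 1 ≤ T0 ∧ ∃ C : ℝ, 0 < C ∧ ∀ x U z : ℕ, 2 ≤ z → z ^ T0 ≤ U → U ≤ 2 * x + 1 →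
    ∀ S : Finset ℕ, (∀ n ∈ S, 1 ≤ n ∧ n ≤ x ∧ ∃ A B : ℤ, A ^ 2 + B ^ 2 = (n : ℤ) ^ 2 + n + 1 ∧
      (2 : ℤ) ∣ B ∧ 0 < A ∧ (U : ℤ) < 2 * n + 1 - 2 * A ∧ 2 * n + 1 - 2 * A ≤ 2 * (U : ℤ) ∧
      (∀ p ∈ pr 13 (z + 1), ¬ p ∣ n ^ 2 + n + 1) ∧
      (∀ p ∈ pr 13 (z + 1), p % 4 = 1 → p ∣ n → ∀ ι : ZMod p, ι ^ 2 = -1 →
        IsSquare ((A : ZMod p) + (B : ZMod p) * ι))) →
    (S.card : ℝ) ≤ C * Real.sqrt (x * U) * Real.exp (-((5 / 4) * ll z)) := by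
  classical
  obtain ⟨K, Cs, hCs, hsv⟩ := SV 6
  obtain ⟨Cd, hCd, hsum⟩ := dn2_sum
  refine ⟨2 * K + 7, by omega, 22 * (Cs * (Real.exp Cd + 1)), by positivity, ?_⟩
  intro x U z hz2 hzU hUx S hS
  have hzK : z ^ K ≤ Nat.sqrt (U / 2) := by
    apply Nat.le_sqrt.2
    have h1 : z ^ K * z ^ K * 16 ≤ z ^ (2 * K + 7) := by
      have h16 : 16 ≤ z ^ 7 := by
        have := Nat.pow_le_pow_left hz2 7
        norm_num at this
        omega
      calc z ^ K * z ^ K * 16 ≤ z ^ K * z ^ K * z ^ 7 := Nat.mul_le_mul_left _ h16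
        _ = z ^ (2 * K + 7) := by ring
    generalize z ^ K * z ^ K = w at h1 ⊢
    omega
  have hU128 : 128 ≤ U := by
    have h1 : 2 ^ 7 ≤ 2 ^ (2 * K + 7) := Nat.pow_le_pow_right (by norm_num) (by omega)
    have h2 : 2 ^ (2 * K + 7) ≤ z ^ (2 * K + 7) := Nat.pow_le_pow_left hz2 _
    have h3 := h1.trans (h2.trans hzU)
    norm_num at h3
    exact h3
  have hx : 1 ≤ x := by omega
  set R := Nat.sqrt (U / 2) with hRdef
  set L := 3 * Nat.sqrt (x / U) + 8 with hLdef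
  set P := (pr 13 (z + 1)).filter (fun p => p % 4 = 1) with hP
  have hPf : ∀ p ∈ P, p.Prime ∧ p % 4 = 1 ∧ 13 ≤ p ∧ p ≤ z := by
    intro p hp
    rw [hP, mem_filter, mem_pr] at hp
    exact ⟨hp.1.2, hp.2, hp.1.1.1, by omega⟩
  set BB : ℤ → Finset (ℤ × ℤ × ℤ) := fun σ =>
    (box R L).filter (fun a => ∀ p ∈ P, ¬ B2 σ p a.1 a.2.1 a.2.2 (qq a)) with hBB
  set g : ℤ → ℤ × ℤ × ℤ → ℕ := fun σ y =>
    ((σ * (y.1 ^ 2 - 3 * y.2.1 ^ 2 + (y.2.2 ^ 2 - 3 * (qq y) ^ 2)) - 2) / 4).toNat with hg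
  have hcov : S ⊆ (BB 1).image (g 1) ∪ (BB (-1)).image (g (-1)) := by
    intro n hn
    obtain ⟨hn1, hnx, A, B, hAB, hB, hA, hu1, hu2, hnd, hsq⟩ := hS n hn
    obtain ⟨σ, hσ, y, hy, e1, e2, e3⟩ := IB_mem x U hU128 n hnx A B hAB hu1 hu2
    have hyB : y ∈ BB σ := by
      rw [hBB]
      simp only [mem_filter]
      refine ⟨hy, ?_⟩
      intro p hp
      obtain ⟨hp1, hp2, hp3, hp4⟩ := hPf p hp
      have hpm : p ∈ pr 13 (z + 1) := mem_pr.2 ⟨⟨hp3, by omega⟩, hp1⟩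
      unfold B2
      rw [not_not]
      exact IB_G2 p hp1 hp3 σ hσ _ _ _ _ n A B e1 e2 e3 (hnd p hpm) (hsq p hpm hp2)
    have hgy : g σ y = n := by
      rw [hg]
      simp only
      rw [e1]
      have : (4 * (n : ℤ) + 2 - 2) / 4 = n := by omega
      rw [this]
      simp
    rw [mem_union]
    rcases hσ with rfl | rfl
    · left
      exact mem_image.2 ⟨y, hyB, hgy⟩
    · right
      exact mem_image.2 ⟨y, hyB, hgy⟩
  have hcard : S.card ≤ (BB 1).card + (BB (-1)).card := by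
    refine (card_le_card hcov).trans ((card_union_le _ _).trans ?_)
    exact Nat.add_le_add card_image_le card_image_le
  have hll := IB_ll z hz2
  have hLR : (L : ℝ) * (R : ℝ) ^ 2 ≤ 11 * Real.sqrt (x * U) := IB_LR x U (by omega) hx hUx
  have hbd : ∀ σ : ℤ, σ = 1 ∨ σ = -1 → ((BB σ).card : ℝ) ≤
      Cs * ((L : ℝ) * (R : ℝ) ^ 2) * ((Real.exp Cd + 1) * Real.exp (-((5 / 4) * ll z))) := by
    intro σ hσ
    have h1 := hsv (B2 σ) z P hz2
      (by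
        intro p hp
        obtain ⟨h1, h2, h3, h4⟩ := hPf p hp
        exact mem_pr.2 ⟨⟨by omega, by omega⟩, h1⟩)
      (fun p _ => Per_B2 σ p)
      (by
        intro p hp
        obtain ⟨h1, h2, h3, h4⟩ := hPf p hp
        exact_mod_cast dn2_bd p h1 h2 h3 σ hσ) R L (by omega) hzK
    have h2 := hsum σ hσ z hz2
    rw [← hP] at h2
    have h3 : Real.exp (-∑ p ∈ P, dn p (B2 σ p)) ≤ Real.exp Cd * Real.exp (-((5 / 4) * ll z)) := by
      rw [← Real.exp_add]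
      apply Real.exp_le_exp.2
      linarith
    have h5 : ((BB σ).card : ℝ) ≤ Cs * (L * (R : ℝ) ^ 2) *
        (Real.exp (-∑ p ∈ P, dn p (B2 σ p)) + 1 / (z : ℝ) ^ 3) := by
      rw [hBB]
      convert h1
    refine h5.trans (mul_le_mul_of_nonneg_left ?_ (by positivity))
    linarith
  have hb1 := hbd 1 (Or.inl rfl)
  have hb2 := hbd (-1) (Or.inr rfl)
  have hcard' : (S.card : ℝ) ≤ (BB 1).card + (BB (-1)).card := by exact_mod_cast hcard
  calc (S.card : ℝ) ≤ 2 * (Cs * ((L : ℝ) * (R : ℝ) ^ 2) *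
        ((Real.exp Cd + 1) * Real.exp (-((5 / 4) * ll z)))) := by linarith
    _ ≤ 2 * (Cs * (11 * Real.sqrt (x * U)) *
        ((Real.exp Cd + 1) * Real.exp (-((5 / 4) * ll z)))) := by
        apply mul_le_mul_of_nonneg_left _ (by norm_num)
        apply mul_le_mul_of_nonneg_right _ (by positivity)
        apply mul_le_mul_of_nonneg_left hLR (by positivity)
    _ = _ := by ring

end Pool.Agent.H49.PPR
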