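import Pool.Agent.H49.PPR.IA
import Pool.Agent.H49.PPR.IB

/-!
PPR IC: the dyadic sums of I1U' and I2U'.  (Like Pool/Agent/H37/PPE/IC.lean.)
-/

set_option autoImplicit false

namespace Pool.Agent.H49.PPR

open Finset Pool.Agent.H37.PPC Pool.Agent.H37.PPD Pool.Agent.H37.PPE

private theorem ICp_dy (Y u K : ℕ) (hY : Y < u) (hu : u ≤ Y * 2 ^ K) :
    ∃ j ∈ range K, Y * 2 ^ j < u ∧ u ≤ 2 * (Y * 2 ^ j) := by
  induction K with
  | zero =>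
    rw [pow_zero, mul_one] at hu
    omega
  | succ K ih =>
    by_cases h : u ≤ Y * 2 ^ K
    · obtain ⟨j, hj, h1⟩ := ih h
      exact ⟨j, mem_range.2 ((mem_range.1 hj).trans (Nat.lt_succ_self K)), h1⟩
    · refine ⟨K, self_mem_range_succ K, by omega, ?_⟩
      rw [pow_succ] at hu
      linarith

private theorem ICp_geo (K : ℕ) : ∑ j ∈ range K, Real.sqrt (2 ^ j : ℝ) ≤
    4 * Real.sqrt (2 ^ (K - 1) : ℝ) := by
  have h2 : Real.sqrt 2 ^ 2 = 2 := Real.sq_sqrt (by norm_num)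
  have h1 : (1.4 : ℝ) ≤ Real.sqrt 2 := by
    apply Real.le_sqrt_of_sq_le
    norm_num
  have h3 : Real.sqrt 2 ≤ 1.5 := by
    rw [Real.sqrt_le_left (by norm_num)]
    norm_num
  have hs : ∀ j : ℕ, Real.sqrt (2 ^ j : ℝ) = Real.sqrt 2 ^ j := by
    intro j
    have e : (2 : ℝ) ^ j = (Real.sqrt 2 ^ j) ^ 2 := by
      rw [← pow_mul, mul_comm j 2, pow_mul, h2]
    rw [e, Real.sqrt_sq (by positivity)]
  simp only [hs]
  rcases K with _ | K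
  · simp
  · rw [Nat.add_sub_cancel]
    induction K with
    | zero => simp
    | succ K ih =>
      rw [sum_range_succ]
      have h4 : 0 < Real.sqrt 2 ^ K := by positivity
      rw [pow_succ]
      nlinarith

theorem I1' : ∃ T0 : ℕ, 1 ≤ T0 ∧ ∃ C : ℝ, 0 < C ∧ ∀ x Y J z : ℕ, 2 ≤ z → z ^ T0 ≤ Y →
    x ≤ Y * 2 ^ J →
    ∀ S : Finset ℕ, (∀ n ∈ S, 1 ≤ n ∧ n ≤ x ∧ ∃ u w : ℕ, u * w = n ^ 2 + n + 1 ∧ Y < u ∧
      u ≤ w ∧ (∀ p ∈ pr 5 (z + 1), ¬ p ∣ u * w) ∧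
      ∀ p ∈ pr 5 (z + 1), p % 4 = 1 → p ∣ n → IsSquare (u : ZMod p)) →
    (S.card : ℝ) ≤ C * (J + 1) * x * Real.exp (-((9 / 4) * ll z)) := by
  classical
  obtain ⟨T0, hT0, C, hC, h⟩ := I1U'
  refine ⟨T0, hT0, C, hC, ?_⟩
  intro x Y J z hz hY hx S hS
  have hE : 0 < Real.exp (-((9 / 4) * ll z)) := Real.exp_pos _
  set Sj : ℕ → Finset ℕ := fun j => S.filter fun n => ∃ u w : ℕ, u * w = n ^ 2 + n + 1 ∧
    Y * 2 ^ j < u ∧ u ≤ 2 * (Y * 2 ^ j) ∧ u ≤ n ∧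
      (∀ p ∈ pr 5 (z + 1), ¬ p ∣ u * w) ∧
      ∀ p ∈ pr 5 (z + 1), p % 4 = 1 → p ∣ n → IsSquare (u : ZMod p) with hSj
  have h1 : S ⊆ (range J).biUnion Sj := by
    intro n hn
    obtain ⟨hn1, hnx, u, w, huw, hYu, huw', hp⟩ := hS n hn
    have hun : u ≤ n := by
      by_contra hc
      push Not at hc
      have : (n + 1) * (n + 1) ≤ u * w := Nat.mul_le_mul hc (Nat.lt_of_lt_of_le hc huw')
      nlinarith
    obtain ⟨j, hj, h2, h3⟩ := ICp_dy Y u J hYu (hun.trans (hnx.trans hx))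
    rw [mem_biUnion]
    exact ⟨j, hj, mem_filter.2 ⟨hn, u, w, huw, h2, h3, hun, hp⟩⟩
  have h2 : ∀ j ∈ range J, ((Sj j).card : ℝ) ≤ C * x * Real.exp (-((9 / 4) * ll z)) := by
    intro j _
    by_cases hU : Y * 2 ^ j ≤ x
    · refine h x (Y * 2 ^ j) z hz (hY.trans (Nat.le_mul_of_pos_right _ (by positivity))) hU _ ?_
      intro n hn
      obtain ⟨hnS, u, w, huw, h3, h4, _, hp⟩ := mem_filter.1 hn
      exact ⟨(hS n hnS).1, (hS n hnS).2.1, u, w, huw, h3, h4, hp⟩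
    · have he : Sj j = ∅ := by
        rw [eq_empty_iff_forall_notMem]
        intro n hn
        obtain ⟨hnS, u, w, huw, h3, h4, h5, hp⟩ := mem_filter.1 hn
        have := (hS n hnS).2.1
        omega
      rw [he, card_empty, Nat.cast_zero]
      positivity
  have h3 : (S.card : ℝ) ≤ ∑ j ∈ range J, ((Sj j).card : ℝ) := by
    have := (card_le_card h1).trans card_biUnion_le
    exact_mod_cast this
  refine h3.trans ((sum_le_sum h2).trans ?_)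
  rw [sum_const, card_range, nsmul_eq_mul]
  have h4 : 0 ≤ C * x * Real.exp (-((9 / 4) * ll z)) := by positivity
  nlinarith

/-- the part with small `u` -/
private theorem ICp_small (x Y : ℕ) (hx : 1 ≤ x) (hY1 : 1 ≤ Y) (hY : Y ^ 4 ≤ x) (S : Finset ℕ)
    (hS : ∀ n ∈ S, 1 ≤ n ∧ n ≤ x ∧ ∃ A B : ℤ, A ^ 2 + B ^ 2 = (n : ℤ) ^ 2 + n + 1 ∧ 0 < A ∧
      2 * n + 1 - 2 * A ≤ (Y : ℤ)) : (S.card : ℝ) ≤ 4 * (x : ℝ) ^ (7 / 8 : ℝ) := by
  classical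
  have hS' : ∀ n : ℕ, ∃ A B : ℤ, n ∈ S → (1 ≤ n ∧ n ≤ x ∧ A ^ 2 + B ^ 2 = (n : ℤ) ^ 2 + n + 1 ∧
      0 < A ∧ 2 * n + 1 - 2 * A ≤ (Y : ℤ)) := by
    intro n
    by_cases hn : n ∈ S
    · obtain ⟨h1, h2, A, B, h3, h4, h5⟩ := hS n hn
      exact ⟨A, B, fun _ => ⟨h1, h2, h3, h4, h5⟩⟩
    · exact ⟨0, 0, fun h => absurd h hn⟩
  choose A B hAB using hS'
  set M : ℕ := Nat.sqrt (Y * (4 * x + 2) + 3) with hM
  have hA : ∀ n ∈ S, A n ≤ n := by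
    intro n hn
    obtain ⟨h1, h2, h3, h4, h5⟩ := hAB n hn
    by_contra hc
    push Not at hc
    nlinarith [sq_nonneg (B n)]
  have huw : ∀ n ∈ S, (2 * (n : ℤ) + 1 - 2 * A n) * (2 * (n : ℤ) + 1 + 2 * A n) =
      4 * B n ^ 2 - 3 := by
    intro n hn
    obtain ⟨h1, h2, h3, h4, h5⟩ := hAB n hn
    linear_combination (-4) * h3
  have hcard : S.card ≤ (Icc 1 Y ×ˢ range (M + 1)).card := by
    refine card_le_card_of_injOn
      (fun n => ((2 * (n : ℤ) + 1 - 2 * A n).toNat, (B n).natAbs)) ?_ ?_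
    · intro n hn
      have hn' : n ∈ S := hn
      obtain ⟨h1, h2, h3, h4, h5⟩ := hAB n hn'
      have h6 := hA n hn'
      have h7 := huw n hn'
      rw [mem_coe, mem_product, mem_Icc, mem_range]
      refine ⟨⟨by dsimp only; omega, by dsimp only; omega⟩, ?_⟩
      dsimp only
      rw [Nat.lt_succ_iff, hM, Nat.le_sqrt']
      have h8 : (2 * (n : ℤ) + 1 - 2 * A n) * (2 * (n : ℤ) + 1 + 2 * A n) ≤ Y * (4 * x + 2) := by
        apply mul_le_mul h5 _ (by omega) (by omega)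
        have : (n : ℤ) ≤ x := by exact_mod_cast h2
        omega
      have h9 : ((B n).natAbs : ℤ) ^ 2 ≤ Y * (4 * x + 2) + 3 := by
        rw [Int.natAbs_sq]
        nlinarith [sq_nonneg (B n)]
      exact_mod_cast h9
    · intro n hn n' hn' hnn
      have hn1 : n ∈ S := hn
      have hn1' : n' ∈ S := hn'
      simp only [Prod.mk.injEq] at hnn
      have h6 := hA n hn1
      have h6' := hA n' hn1'
      have h7 := huw n hn1
      have h7' := huw n' hn1'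
      have e1 : (2 * (n : ℤ) + 1 - 2 * A n) = (2 * (n' : ℤ) + 1 - 2 * A n') := by omega
      have e2 : B n ^ 2 = B n' ^ 2 := by
        rw [← Int.natAbs_sq (B n), ← Int.natAbs_sq (B n'), hnn.2]
      rw [← e2, ← h7, e1] at h7'
      have e3 : (2 * (n' : ℤ) + 1 + 2 * A n') = (2 * (n : ℤ) + 1 + 2 * A n) :=
        mul_left_cancel₀ (by omega) h7'
      omega
  have h1 : (S.card : ℝ) ≤ Y * (M + 1) := by
    rw [card_product, Nat.card_Icc, card_range, Nat.add_sub_cancel] at hcard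
    exact_mod_cast hcard
  have hxr : (1 : ℝ) ≤ x := by exact_mod_cast hx
  have hYr : (1 : ℝ) ≤ Y := by exact_mod_cast hY1
  have hM1 : (M : ℝ) + 1 ≤ 4 * (Real.sqrt Y * Real.sqrt x) := by
    have h2 : (M : ℝ) ≤ Real.sqrt ((Y * (4 * x + 2) + 3 : ℕ) : ℝ) := Real.nat_sqrt_le_real_sqrt
    have h3 : Real.sqrt ((Y * (4 * x + 2) + 3 : ℕ) : ℝ) ≤ 3 * (Real.sqrt Y * Real.sqrt x) := by
      rw [Real.sqrt_le_left (by positivity), mul_pow, mul_pow, Real.sq_sqrt (by positivity),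
        Real.sq_sqrt (by positivity)]
      push_cast
      nlinarith
    have h4 : 1 ≤ Real.sqrt Y * Real.sqrt x := by
      rw [← Real.sqrt_mul (by positivity)]
      apply Real.le_sqrt_of_sq_le
      nlinarith
    linarith
  have hYx : (Y : ℝ) ≤ (x : ℝ) ^ (1 / 4 : ℝ) := by
    have h2 : ((Y : ℝ) ^ 4) ≤ x := by exact_mod_cast hY
    have h3 : ((Y : ℝ) ^ 4) ^ (1 / 4 : ℝ) ≤ (x : ℝ) ^ (1 / 4 : ℝ) :=
      Real.rpow_le_rpow (by positivity) h2 (by norm_num)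
    rw [← Real.rpow_natCast, ← Real.rpow_mul (by positivity)] at h3
    norm_num at h3
    exact h3
  have hsY : Real.sqrt Y ≤ (x : ℝ) ^ (1 / 8 : ℝ) := by
    have h2 : Real.sqrt Y ≤ Real.sqrt ((x : ℝ) ^ (1 / 4 : ℝ)) := Real.sqrt_le_sqrt hYx
    rw [Real.sqrt_eq_rpow, Real.sqrt_eq_rpow, ← Real.rpow_mul (by positivity)] at h2
    norm_num at h2
    rw [Real.sqrt_eq_rpow]
    exact h2
  refine h1.trans ?_
  calc (Y : ℝ) * (M + 1) ≤ (x : ℝ) ^ (1 / 4 : ℝ) * (4 * ((x : ℝ) ^ (1 / 8 : ℝ) * Real.sqrt x)) := by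
        refine mul_le_mul hYx (hM1.trans ?_) (by positivity) (by positivity)
        gcongr
    _ = 4 * (x : ℝ) ^ (7 / 8 : ℝ) := by
        rw [Real.sqrt_eq_rpow]
        have hx0 : (0 : ℝ) < x := by linarith
        rw [← Real.rpow_add hx0]
        rw [show (x : ℝ) ^ (1 / 4 : ℝ) * (4 * (x : ℝ) ^ (1 / 8 + 1 / 2 : ℝ)) =
          4 * ((x : ℝ) ^ (1 / 4 : ℝ) * (x : ℝ) ^ (1 / 8 + 1 / 2 : ℝ)) by ring, ← Real.rpow_add hx0]
        norm_num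

theorem I2' : ∃ T : ℕ, 1 ≤ T ∧ ∃ C : ℝ, 0 < C ∧ ∀ x z : ℕ, 2 ≤ z → z ^ T ≤ x →
    ∀ S : Finset ℕ, (∀ n ∈ S, 1 ≤ n ∧ n ≤ x ∧ ∃ A B : ℤ, A ^ 2 + B ^ 2 = (n : ℤ) ^ 2 + n + 1 ∧
      (2 : ℤ) ∣ B ∧ 0 < A ∧
      (∀ p ∈ pr 13 (z + 1), ¬ p ∣ n ^ 2 + n + 1) ∧
      (∀ p ∈ pr 13 (z + 1), p % 4 = 1 → p ∣ n → ∀ ι : ZMod p, ι ^ 2 = -1 →
        IsSquare ((A : ZMod p) + (B : ZMod p) * ι))) →
    (S.card : ℝ) ≤ C * x * Real.exp (-((5 / 4) * ll z)) + C * (x : ℝ) ^ (7 / 8 : ℝ) := by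
  classical
  obtain ⟨T0, hT0, C, hC, h⟩ := I2U'
  refine ⟨T0 * 4, by omega, 8 * C + 4, by positivity, ?_⟩
  intro x z hz hzx S hS
  set Y : ℕ := z ^ T0 with hYdef
  have hY1 : 1 ≤ Y := Nat.one_le_pow _ _ (by omega)
  have hY4 : Y ^ 4 ≤ x := by rw [hYdef, ← pow_mul]; exact hzx
  have hx1 : 1 ≤ x := (Nat.one_le_pow _ _ (by omega)).trans hzx
  have hxr : (1 : ℝ) ≤ x := by exact_mod_cast hx1
  have hYr : (1 : ℝ) ≤ Y := by exact_mod_cast hY1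
  set E : ℝ := Real.exp (-((5 / 4) * ll z)) with hE
  have hE0 : 0 < E := Real.exp_pos _
  -- the number of dyadic intervals
  have hex : ∃ K : ℕ, 2 * x + 1 < Y * 2 ^ K := by
    refine ⟨2 * x + 1, ?_⟩
    calc 2 * x + 1 < 2 ^ (2 * x + 1) := Nat.lt_two_pow_self
      _ ≤ Y * 2 ^ (2 * x + 1) := Nat.le_mul_of_pos_left _ hY1
  obtain ⟨K, hK, hKmin⟩ : ∃ K : ℕ, 2 * x + 1 < Y * 2 ^ K ∧ ∀ j < K, Y * 2 ^ j ≤ 2 * x + 1 :=
    ⟨Nat.find hex, Nat.find_spec hex, fun j hj => not_lt.1 (Nat.find_min hex hj)⟩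
  set S0 : Finset ℕ := S.filter fun n => ∃ A B : ℤ, A ^ 2 + B ^ 2 = (n : ℤ) ^ 2 + n + 1 ∧
    0 < A ∧ 2 * n + 1 - 2 * A ≤ (Y : ℤ) with hS0
  set Sj : ℕ → Finset ℕ := fun j => S.filter fun n => ∃ A B : ℤ,
    A ^ 2 + B ^ 2 = (n : ℤ) ^ 2 + n + 1 ∧
      (2 : ℤ) ∣ B ∧ 0 < A ∧ ((Y * 2 ^ j : ℕ) : ℤ) < 2 * n + 1 - 2 * A ∧
      2 * n + 1 - 2 * A ≤ 2 * ((Y * 2 ^ j : ℕ) : ℤ) ∧
      (∀ p ∈ pr 13 (z + 1), ¬ p ∣ n ^ 2 + n + 1) ∧
      (∀ p ∈ pr 13 (z + 1), p % 4 = 1 → p ∣ n → ∀ ι : ZMod p, ι ^ 2 = -1 →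
        IsSquare ((A : ZMod p) + (B : ZMod p) * ι)) with hSj
  have h1 : S ⊆ S0 ∪ (range K).biUnion Sj := by
    intro n hn
    obtain ⟨hn1, hnx, A, B, hAB, hB, hA, h3, h4⟩ := hS n hn
    rw [mem_union, mem_biUnion]
    by_cases hu : 2 * (n : ℤ) + 1 - 2 * A ≤ (Y : ℤ)
    · exact Or.inl (mem_filter.2 ⟨hn, A, B, hAB, hA, hu⟩)
    · right
      push Not at hu
      obtain ⟨u, hu'⟩ : ∃ u : ℕ, (u : ℤ) = 2 * (n : ℤ) + 1 - 2 * A :=
        ⟨(2 * (n : ℤ) + 1 - 2 * A).toNat, by omega⟩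
      have hYu : Y < u := by
        have : (Y : ℤ) < u := by rw [hu']; exact hu
        exact_mod_cast this
      have hux : u ≤ 2 * x + 1 := by
        have : (n : ℤ) ≤ x := by exact_mod_cast hnx
        omega
      obtain ⟨j, hj, h5, h6⟩ := ICp_dy Y u K hYu (hux.trans hK.le)
      refine ⟨j, hj, mem_filter.2 ⟨hn, A, B, hAB, hB, hA, ?_, ?_, h3, h4⟩⟩
      · rw [← hu']
        exact_mod_cast h5
      · rw [← hu']
        exact_mod_cast h6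
  have h2 : (S0.card : ℝ) ≤ 4 * (x : ℝ) ^ (7 / 8 : ℝ) := by
    refine ICp_small x Y hx1 hY1 hY4 S0 ?_
    intro n hn
    obtain ⟨hnS, A, B, h3, h4, h5⟩ := mem_filter.1 hn
    exact ⟨(hS n hnS).1, (hS n hnS).2.1, A, B, h3, h4, h5⟩
  have h3 : ∀ j ∈ range K, ((Sj j).card : ℝ) ≤
      C * Real.sqrt (x * ((Y * 2 ^ j : ℕ) : ℝ)) * E := by
    intro j hj
    refine h x (Y * 2 ^ j) z hz (Nat.le_mul_of_pos_right _ (by positivity))
      (hKmin j (mem_range.1 hj)) _ ?_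
    intro n hn
    obtain ⟨hnS, A, B, k1, k2, k3, k4, k5, k6, k7⟩ := mem_filter.1 hn
    exact ⟨(hS n hnS).1, (hS n hnS).2.1, A, B, k1, k2, k3, k4, k5, k6, k7⟩
  have h4 : (S.card : ℝ) ≤ S0.card + ∑ j ∈ range K, ((Sj j).card : ℝ) := by
    have := (card_le_card h1).trans ((card_union_le _ _).trans
      (Nat.add_le_add_left card_biUnion_le _))
    exact_mod_cast this
  have h5 : ∑ j ∈ range K, ((Sj j).card : ℝ) ≤ 8 * C * x * E := by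
    refine (sum_le_sum h3).trans ?_
    have h6 : ∑ j ∈ range K, C * Real.sqrt (x * ((Y * 2 ^ j : ℕ) : ℝ)) * E =
        C * E * (Real.sqrt (x * Y) * ∑ j ∈ range K, Real.sqrt (2 ^ j : ℝ)) := by
      rw [mul_sum, mul_sum]
      refine sum_congr rfl fun j _ => ?_
      rw [← Real.sqrt_mul (by positivity)]
      push_cast
      rw [← mul_assoc (x : ℝ)]
      ring
    rw [h6]
    have h7 : Real.sqrt (x * Y) * ∑ j ∈ range K, Real.sqrt (2 ^ j : ℝ) ≤ 8 * x := by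
      rcases Nat.eq_zero_or_pos K with hK0 | hK0
      · rw [hK0, range_zero, sum_empty, mul_zero]
        positivity
      · have h8 : Y * 2 ^ (K - 1) ≤ 2 * x + 1 := hKmin (K - 1) (by omega)
        have h9 : (Y : ℝ) * 2 ^ (K - 1) ≤ 3 * x := by
          have : Y * 2 ^ (K - 1) ≤ 3 * x := by omega
          exact_mod_cast this
        calc Real.sqrt (x * Y) * ∑ j ∈ range K, Real.sqrt (2 ^ j : ℝ)
            ≤ Real.sqrt (x * Y) * (4 * Real.sqrt (2 ^ (K - 1) : ℝ)) :=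
              mul_le_mul_of_nonneg_left (ICp_geo K) (Real.sqrt_nonneg _)
          _ = 4 * Real.sqrt (x * (Y * 2 ^ (K - 1))) := by
              rw [← mul_assoc (x : ℝ), Real.sqrt_mul (by positivity) ((2 : ℝ) ^ (K - 1))]
              ring
          _ ≤ 4 * (2 * x) := by
              refine mul_le_mul_of_nonneg_left ?_ (by norm_num)
              rw [Real.sqrt_le_left (by positivity)]
              nlinarith
          _ = 8 * x := by ring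
    calc C * E * (Real.sqrt (x * Y) * ∑ j ∈ range K, Real.sqrt (2 ^ j : ℝ))
        ≤ C * E * (8 * x) := mul_le_mul_of_nonneg_left h7 (by positivity)
      _ = 8 * C * x * E := by ring
  have h6 : 0 ≤ x * E := by positivity
  have h7 : 0 ≤ (x : ℝ) ^ (7 / 8 : ℝ) := by positivity
  have h8 : (8 * C + 4) * x * E = 8 * C * x * E + 4 * (x * E) := by ring
  have h9 : (8 * C + 4) * (x : ℝ) ^ (7 / 8 : ℝ) =
      8 * (C * (x : ℝ) ^ (7 / 8 : ℝ)) + 4 * (x : ℝ) ^ (7 / 8 : ℝ) := by ring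
  have h10 : 0 ≤ C * (x : ℝ) ^ (7 / 8 : ℝ) := by positivity
  rw [h8, h9]
  linarith

end Pool.Agent.H49.PPR
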