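import Pool.Agent.H49.PPR.D1
import Pool.Agent.H49.PPR.D2

/-!
PPR SM: density sums.

`sum_mod4'`: like sum_mod12 (PPE/DS): 1[l ≡ 1 mod 4] = (1 + DS_chi4 l)/2 for odd l (for l = 2: DS_chi4 2 = 0, (1+0)/2 = 1/2: subtract 1/4);
 DS_sum DS_chi4 DS_TW4 DS_L4 and mertens_two.
`dn2_sum`: dn2_lower, rho_sum12 (the p ≡ 1 mod 12 among p ≡ 1 mod 4), sum_mod4' and DS_tel; small z as in rho_sum12.
`dn1_sum`: dn1_lower, rho_sum3, sum_mod4', DS_tel.
-/

set_option autoImplicit false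

namespace Pool.Agent.H49.PPR

open Finset Pool.Agent.H37.PPC Pool.Agent.H37.PPD Pool.Agent.H37.PPE

private theorem SM_ind (l : ℕ) (hl : l.Prime) :
    (1 : ℝ) / l + DS_chi4 l / l - (if l = 2 then (1 / 2 : ℝ) else 0) ≤ 2 * (if l % 4 = 1 then (1 : ℝ) / l else 0) := by
  have key : l % 4 = 1 ∨ l % 4 = 3 ∨ l = 2 := by
    by_cases h2 : l = 2
    · exact Or.inr (Or.inr h2)
    · have h4 : ¬ 2 ∣ l := fun h => h2 ((Nat.prime_dvd_prime_iff_eq Nat.prime_two hl).1 h).symm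
      omega
  unfold DS_chi4
  rcases key with h | h | h
  · have h2 : l ≠ 2 := by omega
    rw [h, if_neg h2]
    norm_num [DS_g4]
    linarith
  · have h2 : l ≠ 2 := by omega
    rw [h, if_neg h2]
    norm_num [DS_g4]
    exact le_of_eq (by ring)
  · subst h
    norm_num [DS_g4]

theorem sum_mod4' : ∃ C : ℝ, 0 < C ∧ ∀ z w : ℕ, 2 ≤ z → z ≤ w →
    (1 / 2) * (ll w - ll z) - C ≤ rs ((pr z w).filter (fun l => l % 4 = 1)) := by
  obtain ⟨C2, hC2, h2⟩ := DS_sum DS_chi4 DS_TW4 DS_L4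
  obtain ⟨C4, hC4, h4⟩ := mertens_two
  refine ⟨(C2 + C4 + 1 / 2) / 2, by positivity, ?_⟩
  intro z w hz hzw
  have m2 := h2 z w hz hzw
  have m4 := (abs_le.1 (h4 z w hz hzw)).1
  have h5 : ∑ q ∈ pr z w, (1 : ℝ) / q + ∑ q ∈ pr z w, DS_chi4 q / q - 1 / 2 ≤
      2 * rs ((pr z w).filter (fun l => l % 4 = 1)) := by
    have h6 : ∑ q ∈ pr z w, (if q = 2 then (1 / 2 : ℝ) else 0) ≤ 1 / 2 := by
      rw [Finset.sum_ite_eq']
      split_ifs <;> norm_num
    have h7 : ∑ q ∈ pr z w, ((1 : ℝ) / q + DS_chi4 q / q - (if q = 2 then (1 / 2 : ℝ) else 0)) ≤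
        ∑ q ∈ pr z w, 2 * (if q % 4 = 1 then (1 : ℝ) / q else 0) := by
      refine Finset.sum_le_sum fun l hl => ?_
      rw [mem_pr] at hl
      exact SM_ind l hl.2
    rw [Finset.sum_sub_distrib, Finset.sum_add_distrib, ← Finset.mul_sum] at h7
    unfold rs
    rw [Finset.sum_filter]
    linarith
  unfold ll
  linarith

private theorem SM_half (a : ℕ) (ha : 2 ≤ a) : ∃ C : ℝ, 0 < C ∧ ∀ z : ℕ, 2 ≤ z →
    (1 / 4) * ll z - C ≤ ∑ p ∈ (pr a (z + 1)).filter (fun p => p % 4 = 1),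
      ((1 / 2) * ((1 : ℝ) / p) - ((1 : ℝ) / p - 1 / (p + 1))) := by
  obtain ⟨C1, hC1, h1⟩ := sum_mod4'
  refine ⟨|ll a| + C1 + 1, by positivity, ?_⟩
  intro z hz
  have h5 := le_abs_self (ll a)
  have h5' := neg_abs_le (ll a)
  have h0 := abs_nonneg (ll a)
  rcases Nat.lt_or_ge (z + 1) a with h | h
  · have he : (pr a (z + 1)).filter (fun p => p % 4 = 1) = ∅ := by
      rw [Finset.eq_empty_iff_forall_notMem]
      intro x hx
      rw [Finset.mem_filter, mem_pr] at hx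
      omega
    rw [he, Finset.sum_empty]
    have h6 := DS_ll hz (show z ≤ a by omega)
    linarith
  · have h3 := h1 a (z + 1) ha h
    have h4 := DS_ll hz (Nat.le_succ z)
    have h7 : ll (z + 1) = ll z.succ := rfl
    rw [← h7] at h4
    have h8 : ∑ p ∈ (pr a (z + 1)).filter (fun p => p % 4 = 1), ((1 : ℝ) / p - 1 / (p + 1)) ≤
        ∑ p ∈ Ico a (z + 1), ((1 : ℝ) / p - 1 / (p + 1)) := by
      apply Finset.sum_le_sum_of_subset_of_nonneg
      · intro p hp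
        rw [Finset.mem_filter, mem_pr] at hp
        rw [Finset.mem_Ico]
        exact hp.1.1
      · intro p hp _
        rw [Finset.mem_Ico] at hp
        have h3 : (0 : ℝ) < p := by
          have : 0 < p := by omega
          exact_mod_cast this
        have h4 : (1 : ℝ) / (p + 1) ≤ 1 / p := one_div_le_one_div_of_le h3 (by linarith)
        linarith
    have h9 := DS_tel (z + 1) a (by omega)
    rw [Finset.sum_sub_distrib, ← Finset.mul_sum]
    unfold rs at h3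
    linarith

theorem dn2_sum : ∃ C : ℝ, 0 < C ∧ ∀ σ : ℤ, (σ = 1 ∨ σ = -1) → ∀ z : ℕ, 2 ≤ z →
    (5 / 4) * ll z - C ≤ ∑ p ∈ (pr 13 (z + 1)).filter (fun p => p % 4 = 1), dn p (B2 σ p) := by
  obtain ⟨C1, hC1, h1⟩ := SM_half 13 (by norm_num)
  obtain ⟨C2, hC2, h2⟩ := rho_sum12
  refine ⟨C1 + C2, by positivity, ?_⟩
  intro σ hσ z hz
  have m1 := h1 z hz
  have m2 := h2 z hz
  have h3 : ∑ p ∈ (pr 13 (z + 1)).filter (fun p => p % 12 = 1), rho p =
      ∑ p ∈ (pr 13 (z + 1)).filter (fun p => p % 4 = 1), (if p % 12 = 1 then rho p else 0) := by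
    rw [← Finset.sum_filter, Finset.filter_filter]
    refine Finset.sum_congr ?_ fun _ _ => rfl
    ext p
    simp only [Finset.mem_filter]
    constructor
    · rintro ⟨h4, h5⟩
      exact ⟨h4, by omega, h5⟩
    · rintro ⟨h4, -, h5⟩
      exact ⟨h4, h5⟩
  have h4 : ∑ p ∈ (pr 13 (z + 1)).filter (fun p => p % 4 = 1), ((if p % 12 = 1 then rho p else 0) +
      ((1 / 2) * ((1 : ℝ) / p) - ((1 : ℝ) / p - 1 / (p + 1)))) ≤
      ∑ p ∈ (pr 13 (z + 1)).filter (fun p => p % 4 = 1), dn p (B2 σ p) := by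
    refine Finset.sum_le_sum fun p hp => ?_
    rw [Finset.mem_filter, mem_pr] at hp
    exact dn2_lower p hp.1.2 hp.2 σ hσ
  rw [Finset.sum_add_distrib, ← h3] at h4
  linarith

theorem dn1_sum : ∃ C : ℝ, 0 < C ∧ ∀ z : ℕ, 2 ≤ z →
    (9 / 4) * ll z - C ≤ ∑ p ∈ (pr 5 (z + 1)).filter (fun p => p % 3 = 1 ∨ p % 4 = 1), dn p (B1 p) := by
  obtain ⟨C1, hC1, h1⟩ := SM_half 5 (by norm_num)
  obtain ⟨C2, hC2, h2⟩ := rho_sum3
  refine ⟨C1 + C2, by positivity, ?_⟩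
  intro z hz
  have m1 := h1 z hz
  have m2 := h2 z hz
  have h3 : ∑ p ∈ (pr 5 (z + 1)).filter (fun p => p % 3 = 1), rho p =
      ∑ p ∈ (pr 5 (z + 1)).filter (fun p => p % 3 = 1 ∨ p % 4 = 1), (if p % 3 = 1 then rho p else 0) := by
    rw [← Finset.sum_filter, Finset.filter_filter]
    refine Finset.sum_congr ?_ fun _ _ => rfl
    ext p
    simp only [Finset.mem_filter]
    constructor
    · rintro ⟨h4, h5⟩
      exact ⟨h4, Or.inl h5, h5⟩
    · rintro ⟨h4, -, h5⟩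
      exact ⟨h4, h5⟩
  have h3' : ∑ p ∈ (pr 5 (z + 1)).filter (fun p => p % 4 = 1), ((1 / 2) * ((1 : ℝ) / p) - ((1 : ℝ) / p - 1 / (p + 1))) =
      ∑ p ∈ (pr 5 (z + 1)).filter (fun p => p % 3 = 1 ∨ p % 4 = 1),
        (if p % 4 = 1 then (1 / 2) * ((1 : ℝ) / p) - ((1 : ℝ) / p - 1 / (p + 1)) else 0) := by
    rw [← Finset.sum_filter, Finset.filter_filter]
    refine Finset.sum_congr ?_ fun _ _ => rfl
    ext p
    simp only [Finset.mem_filter]
    constructor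
    · rintro ⟨h4, h5⟩
      exact ⟨h4, Or.inr h5, h5⟩
    · rintro ⟨h4, -, h5⟩
      exact ⟨h4, h5⟩
  have h4 : ∑ p ∈ (pr 5 (z + 1)).filter (fun p => p % 3 = 1 ∨ p % 4 = 1), ((if p % 3 = 1 then rho p else 0) +
      (if p % 4 = 1 then (1 / 2) * ((1 : ℝ) / p) - ((1 : ℝ) / p - 1 / (p + 1)) else 0)) ≤
      ∑ p ∈ (pr 5 (z + 1)).filter (fun p => p % 3 = 1 ∨ p % 4 = 1), dn p (B1 p) := by
    refine Finset.sum_le_sum fun p hp => ?_
    rw [Finset.mem_filter, mem_pr] at hp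
    exact dn1_lower p hp.1.2 hp.1.1.1
  rw [Finset.sum_add_distrib, ← h3, ← h3'] at h4
  linarith

end Pool.Agent.H49.PPR
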